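import Mathlib

/-!
# Polynomials whose roots have distinct powers
-/

set_option autoImplicit false

namespace Pool.Agent.Y114.TF

open Polynomial Module

section interp

variable {k : Type*} [Field k] {Ω : Type*} [Field Ω] [Algebra k Ω]

/-- If `f` is monic, splits in `Ω` with distinct roots whose `N`-th powers are distinct, `X` is a
polynomial in `X ^ N` modulo `f`. -/
theorem exists_interp (f : k[X]) (hf : f.Monic) (N : ℕ)
    (s : Finset Ω) (hs : ∀ a ∈ s, aeval a f = 0) (hcard : s.card = f.natDegree)
    (hN : ∀ a ∈ s, ∀ b ∈ s, a ^ N = b ^ N → a = b) :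
    ∃ c : k[X], f ∣ expand k N c - X := by
  classical
  have : Module.Finite k (AdjoinRoot f) := (AdjoinRoot.powerBasis' hf).finite
  have hfr : finrank k (AdjoinRoot f) = f.natDegree := (AdjoinRoot.powerBasis' hf).finrank
  -- the powers of `root ^ N` are linearly independent
  let a : AdjoinRoot f := AdjoinRoot.root f ^ N
  have hli : LinearIndependent k (fun i : Fin f.natDegree => a ^ (i : ℕ)) := by
    rw [Fintype.linearIndependent_iff]
    intro g hg
    let c : k[X] := ∑ i : Fin f.natDegree, C (g i) * X ^ (i : ℕ)
    have hc : f ∣ expand k N c := by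
      rw [← AdjoinRoot.mk_eq_zero]
      simp only [c, map_sum, map_mul, expand_C, map_pow, expand_X, AdjoinRoot.mk_C, AdjoinRoot.mk_X]
      rw [← hg]
      refine Finset.sum_congr rfl fun i _ => ?_
      rw [Algebra.smul_def]
      rfl
    have hroots : ∀ x ∈ s.image (fun b => b ^ N), aeval x c = 0 := by
      intro x hx
      obtain ⟨b, hb, rfl⟩ := Finset.mem_image.1 hx
      obtain ⟨q, hq⟩ := hc
      have h1 := congrArg (aeval b) hq
      rw [map_mul, hs b hb, zero_mul, expand_aeval] at h1
      exact h1
    have hcard' : (s.image (fun b => b ^ N)).card = f.natDegree := by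
      rw [Finset.card_image_of_injOn (fun b hb b' hb' h => hN b hb b' hb' h), hcard]
    have hc0 : c = 0 := by
      by_contra hne
      have hne' : c.map (algebraMap k Ω) ≠ 0 :=
        (Polynomial.map_ne_zero_iff (algebraMap k Ω).injective).2 hne
      have h1 : (s.image (fun b => b ^ N)).card ≤ (c.map (algebraMap k Ω)).natDegree := by
        refine le_trans (Finset.card_le_card (t := (c.map (algebraMap k Ω)).roots.toFinset) ?_)
          (le_trans (Multiset.toFinset_card_le _) (card_roots' _))
        intro x hx
        rw [Multiset.mem_toFinset, mem_roots hne', IsRoot, eval_map_algebraMap]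
        exact hroots x hx
      rw [hcard', natDegree_map] at h1
      have h2 : c.degree < f.natDegree := by
        refine lt_of_le_of_lt (degree_sum_le _ _) ?_
        rw [Finset.sup_lt_iff (WithBot.bot_lt_coe _)]
        intro i _
        refine lt_of_le_of_lt (degree_C_mul_X_pow_le _ _) ?_
        exact_mod_cast i.2
      exact absurd (natDegree_lt_iff_degree_lt hne |>.2 h2) (not_lt.2 h1)
    intro i
    have h3 := congrArg (fun p => coeff p (i : ℕ)) hc0
    simp only [c, finsetSum_coeff, coeff_C_mul, coeff_X_pow, coeff_zero] at h3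
    rw [Finset.sum_eq_single i] at h3
    · simpa using h3
    · intro j _ hj
      rw [if_neg (fun h => hj (Fin.ext h.symm)), mul_zero]
    · intro h
      exact absurd (Finset.mem_univ _) h
  have hspan : Submodule.span k (Set.range fun i : Fin f.natDegree => a ^ (i : ℕ)) = ⊤ :=
    hli.span_eq_top_of_card_eq_finrank' (by rw [Fintype.card_fin, hfr])
  have hroot : AdjoinRoot.root f ∈
      Submodule.span k (Set.range fun i : Fin f.natDegree => a ^ (i : ℕ)) := by
    rw [hspan]; trivial
  rw [Submodule.mem_span_range_iff_exists_fun] at hroot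
  obtain ⟨g, hg⟩ := hroot
  refine ⟨∑ i : Fin f.natDegree, C (g i) * X ^ (i : ℕ), ?_⟩
  rw [← AdjoinRoot.mk_eq_zero, map_sub, AdjoinRoot.mk_X, ← hg, sub_eq_zero]
  simp only [map_sum, map_mul, expand_C, map_pow, expand_X, AdjoinRoot.mk_C, AdjoinRoot.mk_X]
  refine Finset.sum_congr rfl fun i _ => ?_
  rw [Algebra.smul_def]
  rfl

end interp

section lin

variable {k : Type*} [Field k] {V : Type*} [AddCommGroup V] [Module k V] [FiniteDimensional k V]

/-- An endomorphism `T` is a polynomial in `T ^ N`. -/
theorem exists_poly_pow {Ω : Type*} [Field Ω] [Algebra k Ω] (T : End k V) (N : ℕ)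
    (s : Finset Ω) (hs : ∀ a ∈ s, aeval a T.charpoly = 0) (hcard : s.card = T.charpoly.natDegree)
    (hN : ∀ a ∈ s, ∀ b ∈ s, a ^ N = b ^ N → a = b) :
    ∃ c : k[X], T = aeval (T ^ N) c := by
  obtain ⟨c, q, hc⟩ := exists_interp T.charpoly (LinearMap.charpoly_monic T) N s hs hcard hN
  refine ⟨c, ?_⟩
  have h1 := congrArg (aeval T) hc
  rw [map_mul, LinearMap.aeval_self_charpoly, zero_mul, map_sub, expand_aeval, aeval_X,
    sub_eq_zero] at h1
  exact h1.symm

/-- A subspace stable under `S` is stable under the polynomials in `S`. -/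
theorem stable_aeval {S : End k V} {U : Submodule k V} (hU : ∀ u ∈ U, S u ∈ U) (c : k[X]) :
    ∀ u ∈ U, aeval S c u ∈ U := by
  have hpow : ∀ n : ℕ, ∀ u ∈ U, (S ^ n) u ∈ U := by
    intro n
    induction n with
    | zero => intro u hu; simpa using hu
    | succ n ih =>
      intro u hu
      rw [pow_succ']
      exact hU _ (ih u hu)
  intro u hu
  rw [aeval_eq_sum_range, LinearMap.sum_apply]
  exact sum_mem fun i _ => U.smul_mem _ (hpow i u hu)

/-- If the characteristic polynomial is irreducible, there are no stable subspaces. -/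
theorem stable_of_irreducible {T : End k V} (hT : Irreducible T.charpoly) {U : Submodule k V}
    (hU : ∀ u ∈ U, T u ∈ U) : U = ⊥ ∨ U = ⊤ := by
  by_cases hbot : U = ⊥
  · exact Or.inl hbot
  right
  have hmap : Set.MapsTo T U U := hU
  let S : End k U := T.restrict hmap
  have h1 : aeval S T.charpoly = 0 := by
    ext u
    have h2 : ((aeval S T.charpoly) u : V) = aeval T T.charpoly (u : V) := by
      rw [aeval_eq_sum_range, aeval_eq_sum_range, LinearMap.sum_apply, LinearMap.sum_apply,
        AddSubmonoidClass.coe_finsetSum]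
      refine Finset.sum_congr rfl fun i _ => ?_
      rw [LinearMap.smul_apply, LinearMap.smul_apply, Submodule.coe_smul]
      congr 1
      have h3 : ∀ n : ℕ, ((S ^ n) u : V) = (T ^ n) (u : V) := by
        intro n
        induction n with
        | zero => rfl
        | succ n ih =>
          rw [pow_succ', pow_succ']
          change T ((S ^ n) u : V) = T ((T ^ n) (u : V))
          rw [ih]
      exact h3 i
    rw [h2, LinearMap.aeval_self_charpoly]
    rfl
  have hne : Nontrivial U := Submodule.nontrivial_iff_ne_bot.2 hbot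
  have h2 : minpoly k S ∣ T.charpoly := minpoly.dvd k S h1
  have h3 : ¬ IsUnit (minpoly k S) := minpoly.not_isUnit k S
  have h4 : Associated (minpoly k S) T.charpoly :=
    (hT.dvd_iff.1 h2).resolve_left h3 |>.symm
  have h5 : T.charpoly.natDegree ≤ finrank k U := by
    rw [← natDegree_eq_of_degree_eq (degree_eq_degree_of_associated h4)]
    have h6 := LinearMap.minpoly_dvd_charpoly S
    rw [← LinearMap.charpoly_natDegree S]
    exact natDegree_le_of_dvd h6 (LinearMap.charpoly_monic S).ne_zero
  rw [LinearMap.charpoly_natDegree] at h5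
  exact Submodule.eq_top_of_finrank_eq (le_antisymm (Submodule.finrank_le U) h5)

/-- The eigenspace of `T ^ N` is at most one-dimensional. -/
theorem eigen_one_dim {Ω : Type*} [Field Ω] [Algebra k Ω] (T : End k V) (N : ℕ)
    (s : Finset Ω) (hs : ∀ a ∈ s, aeval a T.charpoly = 0) (hcard : s.card = T.charpoly.natDegree)
    (hN : ∀ a ∈ s, ∀ b ∈ s, a ^ N = b ^ N → a = b) (β : k) {u v : V} (hv : v ≠ 0)
    (hTv : T v = β • v) (hu : (T ^ N) u = β ^ N • u) : ∃ c : k, u = c • v := by
  classical
  obtain ⟨c, hc⟩ := exists_poly_pow T N s hs hcard hN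
  -- `u` is an eigenvector of `T`
  have hpow : ∀ (S : End k V) (w : V) (b : k), S w = b • w → ∀ q : k[X], aeval S q w = q.eval b • w := by
    intro S w b hw q
    have h1 : ∀ n : ℕ, (S ^ n) w = b ^ n • w := by
      intro n
      induction n with
      | zero => simp
      | succ n ih =>
        rw [pow_succ', pow_succ']
        change S ((S ^ n) w) = _
        rw [ih, map_smul, hw, smul_smul]
        congr 1
        ring
    rw [aeval_eq_sum_range, LinearMap.sum_apply, eval_eq_sum_range, Finset.sum_smul]
    refine Finset.sum_congr rfl fun i _ => ?_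
    rw [LinearMap.smul_apply, h1, smul_smul]
  have hTN : (T ^ N) v = β ^ N • v := by
    have := hpow T v β hTv (X ^ N)
    simpa using this
  have h1 : T u = (c.eval (β ^ N)) • u := by
    conv_lhs => rw [hc]
    exact hpow _ _ _ hu c
  have h2 : c.eval (β ^ N) = β := by
    have h3 : T v = (c.eval (β ^ N)) • v := by
      conv_lhs => rw [hc]
      exact hpow _ _ _ hTN c
    rw [hTv] at h3
    have h4 : (β - c.eval (β ^ N)) • v = 0 := by rw [sub_smul, h3, sub_self]
    rcases smul_eq_zero.1 h4 with h5 | h5
    · exact (sub_eq_zero.1 h5).symm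
    · exact absurd h5 hv
  rw [h2] at h1
  -- the generalized eigenspace is one-dimensional
  have hsplit : (T.charpoly.map (algebraMap k Ω)).roots.Nodup ∧
      (T.charpoly.map (algebraMap k Ω)).roots.card = T.charpoly.natDegree := by
    have hne : T.charpoly.map (algebraMap k Ω) ≠ 0 :=
      ((LinearMap.charpoly_monic T).map _).ne_zero
    have hle : s.val ≤ (T.charpoly.map (algebraMap k Ω)).roots := by
      rw [Multiset.le_iff_subset s.nodup]
      intro x hx
      rw [mem_roots hne, IsRoot, eval_map_algebraMap]
      exact hs x hx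
    have hcard2 : (T.charpoly.map (algebraMap k Ω)).roots.card ≤ T.charpoly.natDegree := by
      refine (card_roots' _).trans ?_
      rw [natDegree_map]
    have heq : s.val = (T.charpoly.map (algebraMap k Ω)).roots := by
      refine Multiset.eq_of_le_of_card_le hle ?_
      rw [Finset.card_val, hcard]
      exact hcard2
    rw [← heq]
    exact ⟨s.nodup, hcard⟩
  have hmult : (T.charpoly).rootMultiplicity β ≤ 1 := by
    rw [eq_rootMultiplicity_map (algebraMap k Ω).injective, ← count_roots]
    exact Multiset.nodup_iff_count_le_one.1 hsplit.1 (algebraMap k Ω β)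
  have hfin : finrank k (T.maxGenEigenspace β) ≤ 1 := by
    rw [LinearMap.finrank_maxGenEigenspace_eq]
    exact hmult
  have hmem : ∀ w : V, T w = β • w → w ∈ T.maxGenEigenspace β := by
    intro w hw
    rw [Module.End.mem_maxGenEigenspace]
    refine ⟨1, ?_⟩
    rw [pow_one, LinearMap.sub_apply, hw]
    simp
  have h8 := finrank_le_one_iff.1 hfin
  obtain ⟨z, hz⟩ := h8
  obtain ⟨a, ha⟩ := hz ⟨v, hmem v hTv⟩
  obtain ⟨b, hb⟩ := hz ⟨u, hmem u h1⟩
  have ha' : a • (z : V) = v := congrArg Subtype.val ha
  have hb' : b • (z : V) = u := congrArg Subtype.val hb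
  have ha0 : a ≠ 0 := by
    rintro rfl
    rw [zero_smul] at ha'
    exact hv ha'.symm
  refine ⟨b * a⁻¹, ?_⟩
  rw [← ha', smul_smul, mul_assoc, inv_mul_cancel₀ ha0, mul_one, hb']

end lin

end Pool.Agent.Y114.TF
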