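import Mathlib
import Pool.Agent.Y114.TF.Poly

/-!
# Diagonal endomorphisms of direct sums, with irreducible characteristic polynomials
-/

set_option autoImplicit false
set_option linter.unusedSectionVars false

namespace Pool.Agent.Y114.TF

open Polynomial Module

variable {k : Type*} [Field k] {ι : Type*} [Fintype ι] {V : ι → Type*}
  [∀ i, AddCommGroup (V i)] [∀ i, Module k (V i)]

/-- The diagonal endomorphism. -/
def piEnd (T : ∀ i, End k (V i)) : End k (∀ i, V i) :=
  LinearMap.pi fun i => T i ∘ₗ LinearMap.proj i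

@[simp] theorem piEnd_apply (T : ∀ i, End k (V i)) (x : ∀ i, V i) (i : ι) :
    piEnd T x i = T i (x i) := rfl

theorem piEnd_pow (T : ∀ i, End k (V i)) (n : ℕ) (x : ∀ i, V i) (i : ι) :
    (piEnd T ^ n) x i = (T i ^ n) (x i) := by
  induction n generalizing x with
  | zero => rfl
  | succ n ih =>
    rw [pow_succ, pow_succ]
    change (piEnd T ^ n) (piEnd T x) i = (T i ^ n) (T i (x i))
    rw [ih]
    rfl

theorem aeval_piEnd (T : ∀ i, End k (V i)) (q : k[X]) (x : ∀ i, V i) (i : ι) :
    aeval (piEnd T) q x i = aeval (T i) q (x i) := by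
  rw [aeval_eq_sum_range, aeval_eq_sum_range, LinearMap.sum_apply, LinearMap.sum_apply,
    Finset.sum_apply]
  refine Finset.sum_congr rfl fun n _ => ?_
  rw [LinearMap.smul_apply, LinearMap.smul_apply, Pi.smul_apply, piEnd_pow]

variable [∀ i, FiniteDimensional k (V i)]

theorem coprime_of {T : ∀ i, End k (V i)} (hirr : ∀ i, Irreducible (T i).charpoly)
    (hdist : ∀ i j, i ≠ j → (T i).charpoly ≠ (T j).charpoly) {i j : ι} (hij : i ≠ j) :
    IsCoprime (T i).charpoly (T j).charpoly := by
  rw [(hirr i).coprime_iff_not_dvd]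
  intro h
  apply hdist i j hij
  have h1 : Associated (T i).charpoly (T j).charpoly := by
    exact ((hirr j).dvd_iff.1 h).resolve_left (hirr i).not_isUnit |>.symm
  exact eq_of_monic_of_associated (LinearMap.charpoly_monic _) (LinearMap.charpoly_monic _) h1

/-- The projections to the summands are polynomials in `piEnd T`. -/
theorem exists_proj [DecidableEq ι] {T : ∀ i, End k (V i)} (hirr : ∀ i, Irreducible (T i).charpoly)
    (hdist : ∀ i j, i ≠ j → (T i).charpoly ≠ (T j).charpoly) (i : ι) :
    ∃ e : k[X], ∀ x : ∀ i, V i, aeval (piEnd T) e x = Pi.single i (x i) := by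
  have h1 : IsCoprime (T i).charpoly (∏ j ∈ Finset.univ.erase i, (T j).charpoly) := by
    refine IsCoprime.prod_right fun j hj => ?_
    exact coprime_of hirr hdist (Finset.ne_of_mem_erase hj).symm
  obtain ⟨a, b, hab⟩ := h1
  refine ⟨b * ∏ j ∈ Finset.univ.erase i, (T j).charpoly, fun x => ?_⟩
  funext j
  rw [aeval_piEnd]
  by_cases hj : j = i
  · subst hj
    rw [Pi.single_eq_same]
    have h2 : b * ∏ j ∈ Finset.univ.erase j, (T j).charpoly = 1 - a * (T j).charpoly := by
      rw [← hab]; ring
    rw [h2, map_sub, map_one, map_mul, LinearMap.aeval_self_charpoly, mul_zero, sub_zero]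
    rfl
  · rw [Pi.single_eq_of_ne hj]
    have h3 : (T j).charpoly ∣ b * ∏ j ∈ Finset.univ.erase i, (T j).charpoly :=
      (Finset.dvd_prod_of_mem _ (Finset.mem_erase.2 ⟨hj, Finset.mem_univ _⟩)).mul_left _
    obtain ⟨q, hq⟩ := h3
    rw [hq, map_mul, LinearMap.aeval_self_charpoly, zero_mul]
    rfl

theorem charpoly_piEnd [DecidableEq ι] {T : ∀ i, End k (V i)}
    (hirr : ∀ i, Irreducible (T i).charpoly)
    (hdist : ∀ i j, i ≠ j → (T i).charpoly ≠ (T j).charpoly) :
    (piEnd T).charpoly = ∏ i, (T i).charpoly := by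
  have h1 : ∀ i, (T i).charpoly ∣ minpoly k (piEnd T) := by
    intro i
    have h2 : aeval (T i) (minpoly k (piEnd T)) = 0 := by
      ext v
      have h3 := congrFun (LinearMap.congr_fun (minpoly.aeval k (piEnd T)) (Pi.single i v)) i
      rw [aeval_piEnd, Pi.single_eq_same] at h3
      rw [h3]
      rfl
    have h4 : minpoly k (T i) ∣ minpoly k (piEnd T) := minpoly.dvd k _ h2
    have h5 : minpoly k (T i) ∣ (T i).charpoly := LinearMap.minpoly_dvd_charpoly _
    have hnt : Nontrivial (V i) := by
      rw [← finrank_pos_iff (R := k), ← LinearMap.charpoly_natDegree (T i)]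
      exact (hirr i).natDegree_pos
    have h6 : Associated (minpoly k (T i)) (T i).charpoly :=
      ((hirr i).dvd_iff.1 h5).resolve_left (minpoly.not_isUnit k _) |>.symm
    exact h6.symm.dvd.trans h4
  have h7 : ∏ i, (T i).charpoly ∣ minpoly k (piEnd T) :=
    Finset.prod_dvd_of_coprime (fun i _ j _ hij => coprime_of hirr hdist hij) fun i _ => h1 i
  have h8 := h7.trans (LinearMap.minpoly_dvd_charpoly (piEnd T))
  have h9 : (∏ i, (T i).charpoly).Monic := monic_prod_of_monic _ _ fun i _ =>
    LinearMap.charpoly_monic _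
  refine eq_of_monic_of_dvd_of_natDegree_le h9 (LinearMap.charpoly_monic _) h8 ?_
  rw [LinearMap.charpoly_natDegree, natDegree_prod_of_monic _ _ fun i _ =>
    LinearMap.charpoly_monic _]
  simp only [LinearMap.charpoly_natDegree]
  exact (Module.finrank_pi_fintype k).le

/-- The subspaces stable under `piEnd T` are the partial sums. -/
theorem stable_piEnd [DecidableEq ι] {T : ∀ i, End k (V i)}
    (hirr : ∀ i, Irreducible (T i).charpoly)
    (hdist : ∀ i j, i ≠ j → (T i).charpoly ≠ (T j).charpoly) {U : Submodule k (∀ i, V i)}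
    (hU : ∀ u ∈ U, piEnd T u ∈ U) :
    ∃ S : Set ι, ∀ x : ∀ i, V i, x ∈ U ↔ ∀ i, i ∉ S → x i = 0 := by
  have hproj : ∀ i, ∀ u ∈ U, Pi.single i (u i) ∈ U := by
    intro i u hu
    obtain ⟨e, he⟩ := exists_proj hirr hdist i
    rw [← he]
    exact stable_aeval hU e u hu
  refine ⟨{i | ∃ u ∈ U, u i ≠ 0}, fun x => ⟨fun hx i hi => ?_, fun hx => ?_⟩⟩
  · by_contra h
    exact hi ⟨x, hx, h⟩
  · have hx' : x = ∑ i, Pi.single i (x i) := by
      funext j
      rw [Finset.sum_apply, Finset.sum_eq_single j]
      · rw [Pi.single_eq_same]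
      · intro i _ hij
        rw [Pi.single_eq_of_ne hij.symm]
      · intro h
        exact absurd (Finset.mem_univ _) h
    rw [hx']
    refine sum_mem fun i _ => ?_
    by_cases hi : ∃ u ∈ U, u i ≠ 0
    · obtain ⟨u, hu, hui⟩ := hi
      let W : Submodule k (V i) := U.comap (LinearMap.single k V i)
      have hW : ∀ w ∈ W, T i w ∈ W := by
        intro w hw
        have h1 : piEnd T (Pi.single i w) = Pi.single i (T i w) := by
          funext j
          rw [piEnd_apply]
          by_cases hj : j = i
          · subst hj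
            rw [Pi.single_eq_same, Pi.single_eq_same]
          · rw [Pi.single_eq_of_ne hj, Pi.single_eq_of_ne hj, map_zero]
        change Pi.single i (T i w) ∈ U
        rw [← h1]
        exact hU _ hw
      rcases stable_of_irreducible (hirr i) hW with h2 | h2
      · exfalso
        apply hui
        have h3 : u i ∈ W := hproj i u hu
        rw [h2, Submodule.mem_bot] at h3
        exact h3
      · have h3 : x i ∈ W := by rw [h2]; trivial
        exact h3
    · have h3 := hx i hi
      rw [h3, Pi.single_zero]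
      exact U.zero_mem

/-- Endomorphisms commuting with `piEnd T` are diagonal. -/
theorem comm_piEnd [DecidableEq ι] {T : ∀ i, End k (V i)}
    (hirr : ∀ i, Irreducible (T i).charpoly)
    (hdist : ∀ i j, i ≠ j → (T i).charpoly ≠ (T j).charpoly) {A : End k (∀ i, V i)}
    (hA : Commute A (piEnd T)) :
    ∃ B : ∀ i, End k (V i), A = piEnd B := by
  refine ⟨fun i => LinearMap.proj i ∘ₗ A ∘ₗ LinearMap.single k V i, ?_⟩
  refine LinearMap.ext fun x => funext fun i => ?_
  rw [piEnd_apply]
  change A x i = A (Pi.single i (x i)) i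
  obtain ⟨e, he⟩ := exists_proj hirr hdist i
  have h1 : Commute A (aeval (piEnd T) e) := by
    have h2 : ∀ n : ℕ, Commute A (piEnd T ^ n) := fun n => hA.pow_right n
    rw [aeval_eq_sum_range]
    exact Commute.sum_right _ _ _ fun n _ => (h2 n).smul_right _
  have h3 := LinearMap.congr_fun h1 x
  change A (aeval (piEnd T) e x) = aeval (piEnd T) e (A x) at h3
  rw [he, he] at h3
  rw [h3, Pi.single_eq_same]

end Pool.Agent.Y114.TF
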