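import Mathlib
import Pool.Agent.H204R3.GP.Defs
import Pool.Agent.H204R3.GP.HomDefs

/-!
# Direct sums of symplectic Galois representations, polarizations, Frobenius eigenvalues
-/

set_option autoImplicit false

namespace Pool.Agent.Y114.TF

open NumberField Pool.Agent.H204R3.GP
open scoped TensorProduct

open scoped Classical in
/-- The proportion of the primes up to `N` with a property. -/
noncomputable def proportion (P : ℕ → Prop) (N : ℕ) : ℝ :=
  (((Finset.range (N + 1)).filter fun p => p.Prime ∧ P p).card : ℝ) / (Nat.primeCounting N : ℝ)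

section hom

variable {k : Type} [Field k] {W : Type} [AddCommGroup W] [Module k W]

/-- The linear map `f : W ^ {⊗ s} → W ^ {⊗ t}` is, after the identification of `W ^ {⊗ t}` with its
dual space by the form `ω`, a product of bilinear forms of the family `B`, where the
`s + t = 2 m` factors are distributed in some way. -/
def IsProductOf {ι : Type} (ω : W →ₗ[k] W →ₗ[k] k) (B : ι → W →ₗ[k] W →ₗ[k] k) {s t : ℕ}
    (f : (⨂[k] _ : Fin s, W) →ₗ[k] (⨂[k] _ : Fin t, W)) : Prop :=
  ∃ (m : ℕ) (e : Fin m × Fin 2 ≃ Fin s ⊕ Fin t) (u : Fin m → ι),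
    ∀ (x : Fin s → W) (y : Fin t → W), pairing ω y (f (PiTensorProduct.tprod k x)) =
      ∏ l, B (u l) (Sum.elim x y (e (l, 0))) (Sum.elim x y (e (l, 1)))

/-- Every homomorphism `W ^ {⊗ s} (c) → W ^ {⊗ t} (d)` (of the same weight) which commutes with a
subgroup of finite index of the Galois group is a linear combination of products of the forms of
the family `B`. -/
def HomsGeneratedBy {ι : Type} {Γ : Type} [Group Γ] (ρ : Representation k Γ W) (χ : Γ →* k)
    (ω : W →ₗ[k] W →ₗ[k] k) (B : ι → W →ₗ[k] W →ₗ[k] k) : Prop :=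
  ∀ s t c d : ℕ, s + 2 * c = t + 2 * d → ∀ f : (⨂[k] _ : Fin s, W) →ₗ[k] (⨂[k] _ : Fin t, W),
    IsTateHom ρ χ c d f → f ∈ Submodule.span k {f' | IsProductOf ω B f'}

end hom

section rep

variable {k : Type} [Field k] {ι : Type} {V : ι → Type} [∀ i, AddCommGroup (V i)]
  [∀ i, Module k (V i)] {Γ : Type} [Group Γ]

/-- The direct sum of the representations `ρ i`. -/
def sumRep (ρ : ∀ i, Representation k Γ (V i)) : Representation k Γ (∀ i, V i) where
  toFun g := LinearMap.pi fun i => ρ i g ∘ₗ LinearMap.proj i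
  map_one' := by
    refine LinearMap.ext fun x => funext fun i => ?_
    simp
  map_mul' g h := by
    refine LinearMap.ext fun x => funext fun i => ?_
    simp

/-- The form `ω i` of a summand, as a form on the sum. -/
def partForm (ω : ∀ i, V i →ₗ[k] V i →ₗ[k] k) (i : ι) : (∀ i, V i) →ₗ[k] (∀ i, V i) →ₗ[k] k :=
  (ω i).compl₁₂ (LinearMap.proj i) (LinearMap.proj i)

/-- The orthogonal sum of the forms `ω i`. -/
def sumForm [Fintype ι] (ω : ∀ i, V i →ₗ[k] V i →ₗ[k] k) :
    (∀ i, V i) →ₗ[k] (∀ i, V i) →ₗ[k] k :=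
  ∑ i, partForm ω i

/-- `V` is the sum of the `V i`, with the Galois action and the sum of the polarizations `ω i`.  Every
homomorphism `V ^ {⊗ s} (c) → V ^ {⊗ t} (d)` (of the same weight) which commutes with a subgroup of
finite index of the Galois group is a linear combination of products of the polarizations of the
summands. -/
def HomsGeneratedByPolarizations [Fintype ι] (ρ : ∀ i, Representation k Γ (V i)) (χ : Γ →* k)
    (ω : ∀ i, V i →ₗ[k] V i →ₗ[k] k) : Prop :=
  HomsGeneratedBy (sumRep ρ) χ (sumForm ω) (partForm ω)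

end rep

section rel

variable {ι : Type} [Fintype ι] {F : ι → Type} [∀ i, Field (F i)] [∀ i, NumberField (F i)]
  [∀ i, IsCMField (F i)]

/-- The complex conjugate of an embedding of one of the CM fields `F i`. -/
noncomputable def conj {L : Type} [Field L] (x : Σ i, (F i →+* L)) : Σ i, (F i →+* L) :=
  ⟨x.1, x.2.comp (IsCMField.complexConj (F x.1) : F x.1 →+* F x.1)⟩

/-- The only multiplicative relations between the conjugates of the Weil numbers `π i` are those
generated by the relations `π * (conj π) = q`: in a relation the exponents of conjugate numbers are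
the same. -/
def OnlyTrivialRelations (π : ∀ i, F i) (L : Type) [Field L] [NumberField L] : Prop :=
  ∀ k : (Σ i, (F i →+* L)) → ℤ, ∏ x, (x.2 (π x.1)) ^ k x = 1 → ∀ x, k x = k (conj x)

end rel

/-- `σ` is good for the family of fields `F j i`: the powers of `σ` act transitively on the embeddings
of `F j i`, for one `j` and all `i`; and for all `i` there is a `j` such that `σ` fixes an embedding
of `F j i`. -/
def IsGood {ι J : Type} (F : J → ι → Type) [∀ j i, Field (F j i)] {L : Type} [Field L]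
    [NumberField L] (σ : Gal(L/ℚ)) : Prop :=
  (∃ j, ∀ i, ∀ x y : F j i →+* L, ∃ k : ℕ, ∀ z, (σ ^ k) (x z) = y z) ∧
    ∀ i, ∃ j, ∃ x : F j i →+* L, ∀ z, σ (x z) = x z

/-- The `ℓ`-adic realizations (for all primes `ℓ`) of finitely many polarized motives of the same
weight: representations `ρ ℓ i` on the spaces of vectors of length `n i` over `ℚ_ℓ`, nondegenerate
alternating forms `ω ℓ i` and the similitude character `χ ℓ`. -/
structure Realizations {ι : Type} (n : ι → ℕ) (Γ : Type) [Group Γ] where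
  /-- the representations -/
  ρ : ∀ (ℓ : ℕ) [Fact ℓ.Prime] (i : ι), Representation ℚ_[ℓ] Γ (Fin (n i) → ℚ_[ℓ])
  /-- the similitude character -/
  χ : ∀ (ℓ : ℕ) [Fact ℓ.Prime], Γ →* ℚ_[ℓ]
  /-- the polarizations -/
  ω : ∀ (ℓ : ℕ) [Fact ℓ.Prime] (i : ι), (Fin (n i) → ℚ_[ℓ]) →ₗ[ℚ_[ℓ]]
    (Fin (n i) → ℚ_[ℓ]) →ₗ[ℚ_[ℓ]] ℚ_[ℓ]
  alt : ∀ (ℓ : ℕ) [Fact ℓ.Prime] (i : ι) (v), ω ℓ i v v = 0
  nondeg : ∀ (ℓ : ℕ) [Fact ℓ.Prime] (i : ι) (u), (∀ v, ω ℓ i v u = 0) → u = 0
  sim : ∀ (ℓ : ℕ) [Fact ℓ.Prime] (i : ι) (s : Γ) (u v),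
    ω ℓ i (ρ ℓ i s u) (ρ ℓ i s v) = χ ℓ s * ω ℓ i u v

section

variable {ι : Type} [Fintype ι] {n : ι → ℕ} {Γ : Type} [Group Γ] (R : Realizations n Γ)

/-- At the prime `ℓ` the sum of the representations is semisimple under all subgroups of finite
index, and the homomorphisms between its tensor powers (for subgroups of finite index) are
generated by the polarizations. -/
def Realizations.TateAt (ℓ : ℕ) : Prop :=
  ∃ _ : Fact ℓ.Prime, FiniteIndexSemisimple (sumRep (R.ρ ℓ)) ∧
    HomsGeneratedByPolarizations (R.ρ ℓ) (R.χ ℓ) (R.ω ℓ)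

/-- `γ` is a Frobenius element at a place of residue characteristic `p`: for all primes `ℓ ≠ p` its
characteristic polynomial on the `i`-th representation is the minimal polynomial of the Weil number
`π i`, a generator of the CM field `F i`, with `π i * conj (π i) = p ^ a` and `χ ℓ γ = p ^ a`. -/
def Realizations.IsFrobenius (γ : Γ) (p a : ℕ) {F : ι → Type} [∀ i, Field (F i)]
    [∀ i, NumberField (F i)] [∀ i, IsCMField (F i)] (π : ∀ i, F i) : Prop :=
  p.Prime ∧ 0 < a ∧ (∀ i, IntermediateField.adjoin ℚ {π i} = ⊤) ∧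
    (∀ i, π i * IsCMField.complexConj (F i) (π i) = (p : F i) ^ a) ∧
    ∀ (ℓ : ℕ) [Fact ℓ.Prime], ℓ ≠ p → R.χ ℓ γ = (p : ℚ_[ℓ]) ^ a ∧
      ∀ i, (R.ρ ℓ i γ).charpoly = (minpoly ℚ (π i)).map (algebraMap ℚ ℚ_[ℓ])

end

end Pool.Agent.Y114.TF
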