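import Mathlib
import Pool.Agent.H204R3.GP.Neat
import Pool.Agent.Y114.TF.Defs

/-!
# Families of Weil numbers without nontrivial multiplicative relations
-/

set_option autoImplicit false

namespace Pool.Agent.Y114.TF

open NumberField Pool.Agent.H204R3.GP

section rel

variable {ι : Type} [Fintype ι] {F : ι → Type} [∀ i, Field (F i)] [∀ i, NumberField (F i)]
  [∀ i, IsCMField (F i)] {π : ∀ i, F i} {L : Type} [Field L] [NumberField L]

theorem conj_eq_bar (x : Σ i, (F i →+* L)) : conj x = bar x := rfl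

theorem pow_inj (h : OnlyTrivialRelations π L) (hπ : ∀ i, π i ≠ 0) {N : ℕ} (hN : 0 < N)
    (x y : Σ i, (F i →+* L)) (hxy : val π x ^ N = val π y ^ N) : x = y := by
  classical
  by_contra hne
  have hv : ∀ z : Σ i, (F i →+* L), z.2 (π z.1) ≠ 0 := fun z => by
    rw [Ne, map_eq_zero]; exact hπ _
  let k : (Σ i, (F i →+* L)) → ℤ := fun z => if z = x then (N : ℤ) else if z = y then -N else 0
  have h1 : ∏ z, (z.2 (π z.1)) ^ k z = 1 := by
    rw [← Finset.prod_subset (Finset.subset_univ {x, y}), Finset.prod_pair hne]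
    · simp only [k, if_true, if_neg (Ne.symm hne)]
      rw [zpow_neg, zpow_natCast, zpow_natCast]
      change val π x ^ N * (val π y ^ N)⁻¹ = 1
      rw [hxy]
      exact mul_inv_cancel₀ (pow_ne_zero _ (hv y))
    · intro z _ hz
      rw [Finset.mem_insert, Finset.mem_singleton, not_or] at hz
      simp only [k, if_neg hz.1, if_neg hz.2, zpow_zero]
  have h2 := h k h1 x
  have hNz : (N : ℤ) ≠ 0 := by exact_mod_cast hN.ne'
  simp only [k, if_true] at h2
  rw [conj_eq_bar, if_neg (bar_ne x)] at h2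
  split_ifs at h2 with h3
  · have : (0 : ℤ) < N := by exact_mod_cast hN
    omega
  · exact hNz h2

theorem neat_of_only [IsGalois ℚ L] {p : ℕ} [Fact p.Prime] {a : ℕ}
    (hw : ∀ i, π i * IsCMField.complexConj (F i) (π i) = (p : F i) ^ a)
    (h : OnlyTrivialRelations π L) : Neat p a π L := by
  classical
  intro m M hM I hprod y
  have hp0 : ((p : L) ^ a) ≠ 0 := pow_ne_zero _ (Nat.cast_ne_zero.2 (Fact.out : p.Prime).ne_zero)
  have hvb := fun z => val_bar (L := L) hw z
  have hv : ∀ z : Σ i, (F i →+* L), val π z ≠ 0 := by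
    intro z h0
    have := hvb z
    rw [h0, zero_mul] at this
    exact hp0 this.symm
  let c : (Σ i, (F i →+* L)) → ℕ := fun z => (Finset.univ.filter (fun l => I l = z)).card
  have hc : ∀ g : (Σ i, (F i →+* L)) → L, ∏ z, g z ^ c z = ∏ l, g (I l) := by
    intro g
    have h2 : ∀ z, g z ^ c z = ∏ l, if I l = z then g z else 1 := by
      intro z
      rw [← Finset.prod_filter, Finset.prod_const]
    rw [Finset.prod_congr rfl (fun z _ => h2 z), Finset.prod_comm]
    refine Finset.prod_congr rfl fun l _ => ?_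
    rw [Finset.prod_ite_eq, if_pos (Finset.mem_univ _)]
  let k : (Σ i, (F i →+* L)) → ℤ := fun z => (M : ℤ) * ((c z : ℤ) - c (bar z))
  have h1 : ∏ z, (z.2 (π z.1)) ^ k z = 1 := by
    have h3 : ∀ z : Σ i, (F i →+* L), (z.2 (π z.1)) ^ k z =
        ((val π z ^ M) ^ c z) * (((val π z ^ M) ^ c (bar z)))⁻¹ := by
      intro z
      change (val π z) ^ ((M : ℤ) * ((c z : ℤ) - c (bar z))) = _
      rw [zpow_mul, zpow_natCast, zpow_sub₀ (pow_ne_zero _ (hv z)), zpow_natCast, zpow_natCast,
        div_eq_mul_inv]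
    rw [Finset.prod_congr rfl fun z _ => h3 z, Finset.prod_mul_distrib, Finset.prod_inv_distrib,
      hc (fun z => val π z ^ M), hprod]
    have h4 : ∏ z, (val π z ^ M) ^ c (bar z) = ((p : L) ^ a) ^ (m * M) := by
      let B : (Σ i, (F i →+* L)) ≃ (Σ i, (F i →+* L)) := ⟨bar, bar, bar_bar, bar_bar⟩
      rw [← Equiv.prod_comp B]
      have h5 : ∀ z, (val π (B z) ^ M) ^ c (bar (B z)) = (val π (bar z) ^ M) ^ c z := by
        intro z
        change (val π (bar z) ^ M) ^ c (bar (bar z)) = _
        rw [bar_bar]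
      rw [Finset.prod_congr rfl fun z _ => h5 z, hc (fun z => val π (bar z) ^ M)]
      have h6 : (∏ l, val π (I l) ^ M) * ∏ l, val π (bar (I l)) ^ M =
          ((p : L) ^ a) ^ (m * M) * ((p : L) ^ a) ^ (m * M) := by
        rw [← Finset.prod_mul_distrib]
        have h7 : ∀ l, val π (I l) ^ M * val π (bar (I l)) ^ M = ((p : L) ^ a) ^ M := by
          intro l
          rw [← mul_pow, hvb]
        rw [Finset.prod_congr rfl fun l _ => h7 l, Finset.prod_const, Finset.card_univ,
          Fintype.card_prod, Fintype.card_fin, Fintype.card_fin, ← pow_mul, ← pow_add]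
        congr 1
        ring
      rw [hprod] at h6
      exact mul_left_cancel₀ (pow_ne_zero _ hp0) h6
    rw [h4]
    exact mul_inv_cancel₀ (pow_ne_zero _ hp0)
  have h2 := h k h1 y
  rw [conj_eq_bar] at h2
  simp only [k, bar_bar] at h2
  have hM' : (M : ℤ) ≠ 0 := by exact_mod_cast hM.ne'
  have h8 : (M : ℤ) * (2 * ((c y : ℤ) - c (bar y))) = 0 := by linarith
  rcases mul_eq_zero.1 h8 with h9 | h9
  · exact absurd h9 hM'
  · have h10 : (c y : ℤ) = c (bar y) := by linarith
    exact_mod_cast h10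

end rel

end Pool.Agent.Y114.TF
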