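import Mathlib
import Pool.Agent.H204R3.GP.MT
import Pool.Agent.H204R3.GP.Hom
import Pool.Agent.Y114.TF.Rel
import Pool.Agent.Y114.TF.PiEnd

/-!
# The Tate classes at one prime
-/

set_option autoImplicit false
set_option linter.unusedSectionVars false

namespace Pool.Agent.Y114.TF

open NumberField Module Polynomial Pool.Agent.H204R3.GP IntermediateField
open scoped TensorProduct

section homs

variable {k : Type} [Field k] [CharZero k] {W : Type} [AddCommGroup W] [Module k W]
  [FiniteDimensional k W] {Γ : Type} [Group Γ]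

/-- If all Tate multilinear forms are generated by a set `S` of bilinear forms, so are all
homomorphisms. -/
theorem homs_of (ρ : Representation k Γ W) (χ : Γ →* k)
    (ω : W →ₗ[k] W →ₗ[k] k) (halt : ∀ v, ω v v = 0) (hnd : ∀ u, (∀ v, ω v u = 0) → u = 0)
    (hωρ : ∀ s u v, ω (ρ s u) (ρ s v) = χ s * ω u v) (S : Set (W →ₗ[k] W →ₗ[k] k))
    (H : ∀ (m : ℕ) (φ : MultilinearMap k (fun _ : Fin m × Fin 2 => W) k),
      Pool.Agent.H204R3.SP.IsTate ρ χ m φ → φ ∈ Submodule.span k
        {φ | ∃ (σ : Equiv.Perm (Fin m × Fin 2)) (B : Fin m → (W →ₗ[k] W →ₗ[k] k)),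
          (∀ l, B l ∈ S) ∧ φ = mmG σ B})
    (s t c d : ℕ) (hst : s + 2 * c = t + 2 * d)
    (f : (⨂[k] _ : Fin s, W) →ₗ[k] (⨂[k] _ : Fin t, W)) (hf : IsTateHom ρ χ c d f) :
    f ∈ Submodule.span k {f' | ∃ (m : ℕ) (e : Fin m × Fin 2 ≃ Fin s ⊕ Fin t)
      (B : Fin m → (W →ₗ[k] W →ₗ[k] k)), (∀ l, B l ∈ S) ∧
        ∀ (x : Fin s → W) (y : Fin t → W),
          pairing ω y (f' (PiTensorProduct.tprod k x)) =
            ∏ l, B l (Sum.elim x y (e (l, 0))) (Sum.elim x y (e (l, 1)))} := by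
  classical
  obtain ⟨m, hm⟩ : ∃ m, s + t = 2 * m := ⟨(s + t) / 2, by omega⟩
  have hmc : t + d = m + c := by omega
  obtain ⟨e⟩ : Nonempty (Fin m × Fin 2 ≃ Fin s ⊕ Fin t) := by
    rw [← Fintype.card_eq, Fintype.card_prod, Fintype.card_sum, Fintype.card_fin, Fintype.card_fin,
      Fintype.card_fin, Fintype.card_fin]
    omega
  obtain ⟨Δ, hΔ, hf⟩ := hf
  have h1 := H m ((formOf ω f).domDomCongr e.symm) ⟨Δ, hΔ, fun g hg v => by
    rw [MultilinearMap.domDomCongr_apply, MultilinearMap.domDomCongr_apply, formOf_apply,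
      formOf_apply]
    have h2 := hf g hg (PiTensorProduct.tprod k (fun i => v (e.symm (Sum.inl i))))
    rw [map_smul, PiTensorProduct.map_tprod] at h2
    have h3 := congrArg (pairing ω (fun i => ρ g (v (e.symm (Sum.inr i))))) h2
    rw [map_smul, map_smul, pairing_map ρ χ ω hωρ, smul_eq_mul, smul_eq_mul, ← mul_assoc,
      ← pow_add, add_comm d t, hmc, add_comm m c, pow_add, mul_assoc] at h3
    have h4 : χ g ≠ 0 := by
      intro h5
      have h6 : χ (g * g⁻¹) = 0 := by rw [map_mul, h5, zero_mul]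
      rw [mul_inv_cancel, map_one] at h6
      exact one_ne_zero h6
    exact mul_left_cancel₀ (pow_ne_zero c h4) h3⟩
  -- every element of the span comes from the span of the elementary maps
  have h2 : ∀ φ ∈ Submodule.span k {φ : MultilinearMap k (fun _ : Fin m × Fin 2 => W) k |
        ∃ (σ : Equiv.Perm (Fin m × Fin 2)) (B : Fin m → (W →ₗ[k] W →ₗ[k] k)),
          (∀ l, B l ∈ S) ∧ φ = mmG σ B},
      ∃ f' ∈ Submodule.span k {f' : (⨂[k] _ : Fin s, W) →ₗ[k] (⨂[k] _ : Fin t, W) |
        ∃ (m : ℕ) (e : Fin m × Fin 2 ≃ Fin s ⊕ Fin t)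
      (B : Fin m → (W →ₗ[k] W →ₗ[k] k)), (∀ l, B l ∈ S) ∧
        ∀ (x : Fin s → W) (y : Fin t → W),
          pairing ω y (f' (PiTensorProduct.tprod k x)) =
            ∏ l, B l (Sum.elim x y (e (l, 0))) (Sum.elim x y (e (l, 1)))},
        ∀ (x : Fin s → W) (y : Fin t → W),
        pairing ω y (f' (PiTensorProduct.tprod k x)) = φ (fun l => Sum.elim x y (e l)) := by
    intro φ hφ
    induction hφ using Submodule.span_induction with
    | mem φ hφ =>
      obtain ⟨σ, B, hB, rfl⟩ := hφ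
      obtain ⟨f', hf'⟩ := exists_rep ω halt hnd ((mmG σ B).domDomCongr e)
      refine ⟨f', Submodule.subset_span ⟨m, σ.trans e, B, hB, fun x y => ?_⟩, fun x y => ?_⟩
      · rw [hf']
        rfl
      · rw [hf']
        rfl
    | zero => exact ⟨0, Submodule.zero_mem _, fun x y => by simp⟩
    | add φ ψ _ _ hφ hψ =>
      obtain ⟨f1, h3, h4⟩ := hφ
      obtain ⟨f2, h5, h6⟩ := hψ
      refine ⟨f1 + f2, Submodule.add_mem _ h3 h5, fun x y => ?_⟩
      rw [LinearMap.add_apply, map_add, h4, h6, _root_.add_apply]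
    | smul a φ _ hφ =>
      obtain ⟨f1, h3, h4⟩ := hφ
      refine ⟨a • f1, Submodule.smul_mem _ _ h3, fun x y => ?_⟩
      rw [LinearMap.smul_apply, map_smul, h4, _root_.smul_apply]
  obtain ⟨f', hf'1, hf'2⟩ := h2 _ h1
  have h3 : f = f' := by
    refine PiTensorProduct.ext (MultilinearMap.ext fun x => ?_)
    rw [LinearMap.compMultilinearMap_apply, LinearMap.compMultilinearMap_apply, ← sub_eq_zero]
    refine pairing_inj ω halt hnd _ fun y => ?_
    rw [map_sub, hf'2, sub_eq_zero, MultilinearMap.domDomCongr_apply, formOf_apply]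
    simp only [Equiv.apply_symm_apply, Sum.elim_inl, Sum.elim_inr]
  rw [h3]
  exact hf'1

end homs

section data

variable {k : Type} [Field k] [CharZero k] {κ : Type} [Fintype κ] {F : κ → Type}
  [∀ i, Field (F i)] [∀ i, NumberField (F i)] {L : Type} [Field L] [NumberField L]
  {Ω : Type} [Field Ω] [CharZero Ω] [Algebra k Ω]

/-- The roots of a product of minimal polynomials. -/
theorem exists_roots (π : ∀ i, F i) (hgen : ∀ i, ℚ⟮π i⟯ = ⊤)
    (hcard : ∀ i, Fintype.card (F i →+* L) = finrank ℚ (F i))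
    (hpow : ∀ N : ℕ, 0 < N → ∀ x y : Σ i, (F i →+* L), val π x ^ N = val π y ^ N → x = y)
    (jΩ : L →+* Ω) (f : k[X]) (hf : f = ∏ i, (minpoly ℚ (π i)).map (algebraMap ℚ k)) :
    ∃ s : Finset Ω, (∀ a ∈ s, aeval a f = 0) ∧ s.card = f.natDegree ∧
      ∀ N : ℕ, 0 < N → ∀ a ∈ s, ∀ b ∈ s, a ^ N = b ^ N → a = b := by
  classical
  refine ⟨Finset.univ.image fun x : Σ i, (F i →+* L) => jΩ (val π x), ?_, ?_, ?_⟩
  · intro a ha
    obtain ⟨x, -, rfl⟩ := Finset.mem_image.1 ha
    rw [hf, map_prod]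
    refine Finset.prod_eq_zero (Finset.mem_univ x.1) ?_
    have h0 : aeval (jΩ (val π x)) ((minpoly ℚ (π x.1)).map (algebraMap ℚ k)) =
        aeval (jΩ (val π x)) (minpoly ℚ (π x.1)) := by
      rw [← eval_map_algebraMap, Polynomial.map_map, ← eval_map_algebraMap]
      congr 2
      exact Subsingleton.elim _ _
    rw [h0]
    let y : F x.1 →ₐ[ℚ] Ω := RingHom.equivRatAlgHom (F x.1) Ω (jΩ.comp x.2)
    have h2 := minpoly.aeval ℚ (π x.1)
    have h3 := congrArg y h2
    rw [← Polynomial.aeval_algHom_apply, map_zero] at h3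
    exact h3
  · rw [Finset.card_image_of_injective _ (fun x y hxy => ?_), Finset.card_univ,
      Fintype.card_sigma, hf, natDegree_prod_of_monic]
    · refine Finset.sum_congr rfl fun i _ => ?_
      rw [natDegree_map, hcard]
      exact ((Field.primitive_element_iff_minpoly_natDegree_eq ℚ (π i)).1 (hgen i)).symm
    · intro i _
      exact (minpoly.monic (Algebra.IsIntegral.isIntegral (π i))).map _
    · refine hpow 1 one_pos x y ?_
      rw [pow_one, pow_one]
      exact jΩ.injective hxy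
  · intro N hN a ha b hb hab
    obtain ⟨x, -, rfl⟩ := Finset.mem_image.1 ha
    obtain ⟨y, -, rfl⟩ := Finset.mem_image.1 hb
    rw [← map_pow, ← map_pow] at hab
    rw [hpow N hN x y (jΩ.injective hab)]

/-- The minimal polynomials are different. -/
theorem minpoly_ne (π : ∀ i, F i) (hgen : ∀ i, ℚ⟮π i⟯ = ⊤)
    (hcard : ∀ i, Fintype.card (F i →+* L) = finrank ℚ (F i))
    (hpow : ∀ N : ℕ, 0 < N → ∀ x y : Σ i, (F i →+* L), val π x ^ N = val π y ^ N → x = y)
    {i j : κ} (hij : i ≠ j) : minpoly ℚ (π i) ≠ minpoly ℚ (π j) := by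
  classical
  intro heq
  have hroot : ∀ (i : κ) (φ : F i →+* L), aeval (φ (π i)) (minpoly ℚ (π i)) = 0 := by
    intro i φ
    let y : F i →ₐ[ℚ] L := RingHom.equivRatAlgHom (F i) L φ
    have h3 := congrArg y (minpoly.aeval ℚ (π i))
    rw [← Polynomial.aeval_algHom_apply, map_zero] at h3
    exact h3
  have hm : (minpoly ℚ (π i)).Monic := minpoly.monic (Algebra.IsIntegral.isIntegral _)
  have h0 : (minpoly ℚ (π i)).map (algebraMap ℚ L) ≠ 0 := (hm.map _).ne_zero
  let si : Finset L := Finset.univ.image fun φ : F i →+* L => φ (π i)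
  let sj : Finset L := Finset.univ.image fun φ : F j →+* L => φ (π j)
  have hval : ∀ x y : Σ i, (F i →+* L), x.2 (π x.1) = y.2 (π y.1) → x = y := by
    intro x y h
    refine hpow 1 one_pos x y ?_
    rw [pow_one, pow_one]
    exact h
  have hdisj : Disjoint si sj := by
    rw [Finset.disjoint_left]
    intro a ha hb
    obtain ⟨φ, -, rfl⟩ := Finset.mem_image.1 ha
    obtain ⟨ψ, -, h⟩ := Finset.mem_image.1 hb
    have := hval ⟨j, ψ⟩ ⟨i, φ⟩ h
    exact hij (congrArg Sigma.fst this).symm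
  have hci : si.card = finrank ℚ (F i) := by
    rw [Finset.card_image_of_injective _ (fun φ ψ h => ?_), Finset.card_univ, hcard]
    have := hval ⟨i, φ⟩ ⟨i, ψ⟩ h
    simpa using this
  have hle : (si ∪ sj).card ≤ (minpoly ℚ (π i)).natDegree := by
    rw [← natDegree_map (algebraMap ℚ L) (p := minpoly ℚ (π i))]
    refine le_trans ?_ (card_roots' _)
    refine le_trans ?_ (Multiset.toFinset_card_le _)
    refine Finset.card_le_card fun a ha => ?_
    rw [Multiset.mem_toFinset, mem_roots h0, IsRoot, eval_map_algebraMap]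
    rcases Finset.mem_union.1 ha with h | h
    · obtain ⟨φ, -, rfl⟩ := Finset.mem_image.1 h
      exact hroot i φ
    · obtain ⟨φ, -, rfl⟩ := Finset.mem_image.1 h
      rw [heq]
      exact hroot j φ
  rw [Finset.card_union_of_disjoint hdisj, hci,
    (Field.primitive_element_iff_minpoly_natDegree_eq ℚ (π i)).1 (hgen i)] at hle
  have hcj : 0 < sj.card := by
    rw [Finset.card_pos]
    have : Nonempty (F j →+* L) := by
      rw [← Fintype.card_pos_iff, hcard]
      exact finrank_pos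
    obtain ⟨φ⟩ := this
    exact ⟨_, Finset.mem_image_of_mem _ (Finset.mem_univ φ)⟩
  omega

end data

end Pool.Agent.Y114.TF
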