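import Mathlib
import Pool.Agent.Y114.TF.Local

/-!
# The Tate classes at one prime: semisimplicity, commutants, generation
-/

set_option autoImplicit false
set_option linter.unusedSectionVars false

namespace Pool.Agent.Y114.TF

open NumberField Module Polynomial Pool.Agent.H204R3.GP IntermediateField
open scoped TensorProduct

section

variable {k : Type} [Field k] [CharZero k] {ι : Type} [Fintype ι] [DecidableEq ι]
  {V : ι → Type} [∀ i, AddCommGroup (V i)] [∀ i, Module k (V i)] [∀ i, FiniteDimensional k (V i)]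
  {Γ : Type} [Group Γ] (ρ : ∀ i, Representation k Γ (V i))

theorem sumRep_apply (g : Γ) : sumRep ρ g = piEnd (fun i => ρ i g) := rfl

variable {Ω : Type} [Field Ω] [Algebra k Ω]

/-- Stable subspaces for subgroups of finite index. -/
theorem semisimple_sum (γ : Γ) (hirr : ∀ i, Irreducible (ρ i γ).charpoly)
    (hdist : ∀ i j, i ≠ j → (ρ i γ).charpoly ≠ (ρ j γ).charpoly) (s : Finset Ω)
    (hs : ∀ a ∈ s, aeval a (sumRep ρ γ).charpoly = 0)
    (hcard : s.card = (sumRep ρ γ).charpoly.natDegree)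
    (hN : ∀ N : ℕ, 0 < N → ∀ a ∈ s, ∀ b ∈ s, a ^ N = b ^ N → a = b) :
    FiniteIndexSemisimple (sumRep ρ) := by
  intro Δ hΔ U hU
  obtain ⟨N, hN0, -, hγN⟩ := Subgroup.exists_pow_mem_of_index_ne_zero hΔ.index_ne_zero γ
  obtain ⟨c, hc⟩ := exists_poly_pow (sumRep ρ γ) N s hs hcard (hN N hN0)
  have h1 : ∀ u ∈ U, sumRep ρ γ u ∈ U := by
    intro u hu
    rw [hc]
    refine stable_aeval (fun u hu => ?_) c u hu
    rw [← map_pow]
    exact hU _ hγN u hu
  obtain ⟨S, hS⟩ := stable_piEnd hirr hdist (U := U) h1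
  let U' : Submodule k (∀ i, V i) :=
    { carrier := {x | ∀ i, i ∈ S → x i = 0}
      add_mem' := fun {a b} ha hb i hi => by rw [Pi.add_apply, ha i hi, hb i hi, add_zero]
      zero_mem' := fun i _ => rfl
      smul_mem' := fun c x hx i hi => by rw [Pi.smul_apply, hx i hi, smul_zero] }
  refine ⟨U', fun g _ u hu i hi => ?_, ?_⟩
  · change ρ i g (u i) = 0
    rw [hu i hi, map_zero]
  · constructor
    · rw [Submodule.disjoint_def]
      intro x hx hx'
      funext i
      by_cases hi : i ∈ S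
      · exact hx' i hi
      · exact (hS x).1 hx i hi
    · rw [codisjoint_iff, eq_top_iff]
      intro x _
      classical
      have h2 : x = (fun i => if i ∈ S then x i else 0) + (fun i => if i ∈ S then 0 else x i) := by
        funext i
        rw [Pi.add_apply]
        split_ifs <;> simp
      rw [h2]
      refine Submodule.add_mem_sup ((hS _).2 fun i hi => ?_) ?_
      · rw [if_neg hi]
      · intro i hi
        change (if i ∈ S then (0 : V i) else x i) = 0
        rw [if_pos hi]

/-- The endomorphisms which commute with a subgroup of finite index are scalars on the summands. -/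
theorem commutant_sum (γ : Γ) (hirr : ∀ i, Irreducible (ρ i γ).charpoly)
    (hdist : ∀ i j, i ≠ j → (ρ i γ).charpoly ≠ (ρ j γ).charpoly) (s : Finset Ω)
    (hs : ∀ a ∈ s, aeval a (sumRep ρ γ).charpoly = 0)
    (hcard : s.card = (sumRep ρ γ).charpoly.natDegree)
    (hN : ∀ N : ℕ, 0 < N → ∀ a ∈ s, ∀ b ∈ s, a ^ N = b ^ N → a = b)
    (hroot : ∀ i, ∃ (γ' : Γ) (β : k) (Ω' : Type) (_ : Field Ω') (_ : Algebra k Ω') (s' : Finset Ω'),
      (∀ a ∈ s', aeval a (ρ i γ').charpoly = 0) ∧ s'.card = (ρ i γ').charpoly.natDegree ∧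
      (∀ N : ℕ, 0 < N → ∀ a ∈ s', ∀ b ∈ s', a ^ N = b ^ N → a = b) ∧
      (ρ i γ').charpoly.IsRoot β)
    (Δ : Subgroup Γ) (hΔ : Δ.FiniteIndex) (A : End k (∀ i, V i))
    (hA : ∀ g ∈ Δ, ∀ x, A (sumRep ρ g x) = sumRep ρ g (A x)) :
    ∃ c : ι → k, ∀ x i, A x i = c i • x i := by
  obtain ⟨N, hN0, -, hγN⟩ := Subgroup.exists_pow_mem_of_index_ne_zero hΔ.index_ne_zero γ
  obtain ⟨c, hc⟩ := exists_poly_pow (sumRep ρ γ) N s hs hcard (hN N hN0)
  have hcomm : Commute A (sumRep ρ γ) := by
    have h0 : Commute A (sumRep ρ γ ^ N) := by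
      rw [← map_pow]
      exact LinearMap.ext fun x => hA _ hγN x
    rw [hc, aeval_eq_sum_range]
    exact Commute.sum_right _ _ _ fun n _ => (h0.pow_right n).smul_right _
  obtain ⟨B, hB⟩ := comm_piEnd hirr hdist (A := A) hcomm
  have hBT : ∀ i v, B i (ρ i γ v) = ρ i γ (B i v) := by
    intro i v
    have h1 := congrFun (LinearMap.congr_fun hcomm (Pi.single i v)) i
    change A (sumRep ρ γ (Pi.single i v)) i = sumRep ρ γ (A (Pi.single i v)) i at h1
    rw [hB] at h1
    change B i (ρ i γ (Pi.single (M := V) i v i)) = ρ i γ (B i (Pi.single (M := V) i v i)) at h1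
    rwa [Pi.single_eq_same] at h1
  have hBg : ∀ i, ∀ g ∈ Δ, ∀ v, B i (ρ i g v) = ρ i g (B i v) := by
    intro i g hg v
    have h1 := congrFun (hA g hg (Pi.single i v)) i
    rw [hB] at h1
    change B i (ρ i g (Pi.single (M := V) i v i)) = ρ i g (B i (Pi.single (M := V) i v i)) at h1
    rwa [Pi.single_eq_same] at h1
  have hsc : ∀ i, ∃ c : k, ∀ v, B i v = c • v := by
    intro i
    obtain ⟨γ', β, Ω', _, _, s', hs', hcard', hN', hβ⟩ := hroot i
    obtain ⟨v, hv⟩ := ((Module.End.hasEigenvalue_iff_isRoot_charpoly _ _).2 hβ).exists_hasEigenvector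
    obtain ⟨M, hM0, -, hγM⟩ := Subgroup.exists_pow_mem_of_index_ne_zero hΔ.index_ne_zero γ'
    have hTv : ρ i γ' v = β • v := hv.apply_eq_smul
    have hTM : ∀ n : ℕ, (ρ i γ' ^ n) v = β ^ n • v := by
      intro n
      induction n with
      | zero => simp
      | succ n ih =>
        rw [pow_succ']
        change ρ i γ' ((ρ i γ' ^ n) v) = _
        rw [ih, map_smul, hTv, smul_smul, pow_succ]
    have hBv : (ρ i γ' ^ M) (B i v) = β ^ M • B i v := by
      rw [← map_pow, ← hBg i _ hγM, map_pow, hTM, map_smul]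
    obtain ⟨c, hc⟩ := eigen_one_dim (ρ i γ') M s' hs' hcard' (hN' M hM0) β hv.2 hTv hBv
    refine ⟨c, ?_⟩
    have hker : ∀ u ∈ LinearMap.ker (B i - c • (1 : End k (V i))),
        ρ i γ u ∈ LinearMap.ker (B i - c • (1 : End k (V i))) := by
      intro u hu
      rw [LinearMap.mem_ker, LinearMap.sub_apply, LinearMap.smul_apply, Module.End.one_apply,
        sub_eq_zero] at hu ⊢
      rw [hBT, hu, map_smul]
    rcases stable_of_irreducible (hirr i) hker with h2 | h2
    · exfalso
      apply hv.2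
      have h3 : v ∈ LinearMap.ker (B i - c • (1 : End k (V i))) := by
        rw [LinearMap.mem_ker, LinearMap.sub_apply, LinearMap.smul_apply, Module.End.one_apply,
          sub_eq_zero]
        exact hc
      rw [h2, Submodule.mem_bot] at h3
      exact h3
    · intro u
      have h3 : u ∈ LinearMap.ker (B i - c • (1 : End k (V i))) := by rw [h2]; trivial
      rw [LinearMap.mem_ker, LinearMap.sub_apply, LinearMap.smul_apply, Module.End.one_apply,
        sub_eq_zero] at h3
      exact h3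
  choose c' hc' using hsc
  refine ⟨c', fun x i => ?_⟩
  rw [hB, piEnd_apply, hc']

end

section forms

variable {k : Type} [Field k] [CharZero k] {ι : Type} [Fintype ι] [DecidableEq ι]
  {V : ι → Type} [∀ i, AddCommGroup (V i)] [∀ i, Module k (V i)]
  {Γ : Type} [Group Γ] (ρ : ∀ i, Representation k Γ (V i)) (χ : Γ →* k)
  (ω : ∀ i, V i →ₗ[k] V i →ₗ[k] k)

theorem partForm_apply (i : ι) (x y : ∀ i, V i) : partForm ω i x y = ω i (x i) (y i) := rfl

theorem sumForm_apply (x y : ∀ i, V i) : sumForm ω x y = ∑ i, ω i (x i) (y i) := by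
  unfold sumForm
  rw [LinearMap.sum_apply, LinearMap.sum_apply]
  rfl

theorem sumForm_alt (halt : ∀ i v, ω i v v = 0) (v : ∀ i, V i) : sumForm ω v v = 0 := by
  rw [sumForm_apply]
  exact Finset.sum_eq_zero fun i _ => halt i _

theorem sumForm_nondeg (hnd : ∀ i u, (∀ v, ω i v u = 0) → u = 0) (u : ∀ i, V i)
    (hu : ∀ v, sumForm ω v u = 0) : u = 0 := by
  funext i
  refine hnd i _ fun v => ?_
  have h1 := hu (Pi.single i v)
  rw [sumForm_apply, Finset.sum_eq_single i] at h1
  · rwa [Pi.single_eq_same] at h1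
  · intro j _ hj
    rw [Pi.single_eq_of_ne hj, map_zero, LinearMap.zero_apply]
  · intro h
    exact absurd (Finset.mem_univ _) h

theorem sumForm_sim (hωρ : ∀ i s u v, ω i (ρ i s u) (ρ i s v) = χ s * ω i u v) (s : Γ)
    (u v : ∀ i, V i) : sumForm ω (sumRep ρ s u) (sumRep ρ s v) = χ s * sumForm ω u v := by
  rw [sumForm_apply, sumForm_apply, Finset.mul_sum]
  exact Finset.sum_congr rfl fun i _ => hωρ i s _ _

end forms

end Pool.Agent.Y114.TF
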