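import Mathlib
import Pool.Agent.Y114.TF.Local2

/-!
# The Tate classes at one prime: the conclusion
-/

set_option autoImplicit false
set_option linter.unusedSectionVars false

namespace Pool.Agent.Y114.TF

open NumberField Module Polynomial Pool.Agent.H204R3.GP Pool.Agent.H204R3.SP IntermediateField
open scoped TensorProduct

variable {k : Type} [Field k] [CharZero k] {ι : Type} [Fintype ι] [DecidableEq ι]
  {V : ι → Type} [∀ i, AddCommGroup (V i)] [∀ i, Module k (V i)] [∀ i, FiniteDimensional k (V i)]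
  {Γ : Type} [Group Γ] (ρ : ∀ i, Representation k Γ (V i)) (χ : Γ →* k)
  (ω : ∀ i, V i →ₗ[k] V i →ₗ[k] k)

/-- Tate forms of degree two are combinations of the polarizations. -/
theorem tate2_mem_span (halt : ∀ i v, ω i v v = 0) (hnd : ∀ i u, (∀ v, ω i v u = 0) → u = 0)
    (hωρ : ∀ i s u v, ω i (ρ i s u) (ρ i s v) = χ s * ω i u v)
    (hcomm : ∀ Δ : Subgroup Γ, Δ.FiniteIndex → ∀ A : End k (∀ i, V i),
      (∀ g ∈ Δ, ∀ x, A (sumRep ρ g x) = sumRep ρ g (A x)) → ∃ c : ι → k, ∀ x i, A x i = c i • x i)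
    (B : (∀ i, V i) →ₗ[k] (∀ i, V i) →ₗ[k] k) (hB : IsTate2 (sumRep ρ) χ B) :
    B ∈ Submodule.span k (Set.range (partForm ω)) := by
  obtain ⟨Δ, hΔ, hB⟩ := hB
  have halt' := sumForm_alt ω halt
  have hanti : ∀ u v, sumForm ω u v = -sumForm ω v u := by
    intro u v
    have h1 := halt' (u + v)
    simp only [map_add, LinearMap.add_apply, halt', zero_add, add_zero] at h1
    exact eq_neg_of_add_eq_zero_left (by rw [← h1]; ring)
  have hndR := sumForm_nondeg ω hnd
  have hndL : ∀ u, (∀ v, sumForm ω u v = 0) → u = 0 := by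
    intro u hu
    apply hndR
    intro v
    rw [hanti, hu, neg_zero]
  have hinj : Function.Injective (sumForm ω) := by
    rw [← LinearMap.ker_eq_bot, LinearMap.ker_eq_bot']
    intro u hu
    exact hndL u fun v => by rw [hu]; rfl
  have hsurj : Function.Surjective (sumForm ω) := by
    have : Function.Injective (sumForm ω) ↔ Function.Surjective (sumForm ω) := by
      refine LinearMap.injective_iff_surjective_of_finrank_eq_finrank ?_
      exact (Subspace.dual_finrank_eq (K := k) (V := ∀ i, V i)).symm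
    exact this.1 hinj
  let e : (∀ i, V i) ≃ₗ[k] Module.Dual k (∀ i, V i) := LinearEquiv.ofBijective (sumForm ω) ⟨hinj, hsurj⟩
  let A : End k (∀ i, V i) := e.symm.toLinearMap ∘ₗ B
  have hA : ∀ x, sumForm ω (A x) = B x := by
    intro x
    exact e.apply_symm_apply (B x)
  have hχ : ∀ g, χ g ≠ 0 := by
    intro g h5
    have h6 : χ (g * g⁻¹) = 0 := by rw [map_mul, h5, zero_mul]
    rw [mul_inv_cancel, map_one] at h6
    exact one_ne_zero h6
  have hAg : ∀ g ∈ Δ, ∀ x, A (sumRep ρ g x) = sumRep ρ g (A x) := by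
    intro g hg x
    apply hinj
    refine LinearMap.ext fun y => ?_
    obtain ⟨z, rfl⟩ : ∃ z, sumRep ρ g z = y := ⟨sumRep ρ g⁻¹ y, by
      rw [← Module.End.mul_apply, ← map_mul, mul_inv_cancel, map_one, Module.End.one_apply]⟩
    rw [hA, hB g hg, sumForm_sim ρ χ ω hωρ, hA]
  obtain ⟨c, hc⟩ := hcomm Δ hΔ A hAg
  have hBeq : B = ∑ i, c i • partForm ω i := by
    refine LinearMap.ext fun x => LinearMap.ext fun y => ?_
    rw [← hA, sumForm_apply, LinearMap.sum_apply, LinearMap.sum_apply]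
    refine Finset.sum_congr rfl fun i _ => ?_
    rw [hc, map_smul, LinearMap.smul_apply, LinearMap.smul_apply, LinearMap.smul_apply,
      partForm_apply]
  rw [hBeq]
  exact Submodule.sum_mem _ fun i _ => Submodule.smul_mem _ _ (Submodule.subset_span ⟨i, rfl⟩)

/-- The local theorem: at a prime where the characteristic polynomials of one Frobenius element are
irreducible and for each summand some Frobenius element has a root, everything is generated by the
polarizations. -/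
theorem local_main {p : ℕ} [Fact p.Prime] {a : ℕ} (ha : 0 < a)
    {F : ι → Type} [∀ i, Field (F i)] [∀ i, NumberField (F i)] [∀ i, IsCMField (F i)]
    (π : ∀ i, F i) (hgen : ∀ i, ℚ⟮π i⟯ = ⊤)
    (hw : ∀ i, π i * IsCMField.complexConj (F i) (π i) = (p : F i) ^ a)
    {L : Type} [Field L] [NumberField L] [IsGalois ℚ L] (j : L →+* ℂ)
    (hj : ∀ i, ∀ ψ : F i →+* ℂ, ∃ φ : F i →+* L, j.comp φ = ψ)
    (hrel : OnlyTrivialRelations π L)
    (halt : ∀ i v, ω i v v = 0) (hnd : ∀ i u, (∀ v, ω i v u = 0) → u = 0)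
    (hωρ : ∀ i s u v, ω i (ρ i s u) (ρ i s v) = χ s * ω i u v)
    (γ : Γ) (hχ : χ γ = (p : k) ^ a)
    (hγ : ∀ i, (ρ i γ).charpoly = (minpoly ℚ (π i)).map (algebraMap ℚ k))
    (hirr : ∀ i, Irreducible ((minpoly ℚ (π i)).map (algebraMap ℚ k)))
    (hroot : ∀ i, ∃ (γ' : Γ) (β : k) (Ω' : Type) (_ : Field Ω') (_ : Algebra k Ω') (s' : Finset Ω'),
      (∀ a ∈ s', aeval a (ρ i γ').charpoly = 0) ∧ s'.card = (ρ i γ').charpoly.natDegree ∧
      (∀ N : ℕ, 0 < N → ∀ a ∈ s', ∀ b ∈ s', a ^ N = b ^ N → a = b) ∧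
      (ρ i γ').charpoly.IsRoot β) :
    FiniteIndexSemisimple (sumRep ρ) ∧ HomsGeneratedByPolarizations ρ χ ω := by
  classical
  have hp0 : ((p : ℕ) : L) ≠ 0 := Nat.cast_ne_zero.2 (Fact.out : p.Prime).ne_zero
  have hπ0 : ∀ i, π i ≠ 0 := by
    intro i h0
    have h1 := hw i
    rw [h0, zero_mul] at h1
    exact pow_ne_zero a (Nat.cast_ne_zero.2 (Fact.out : p.Prime).ne_zero) h1.symm
  have hcardE : ∀ i, Fintype.card (F i →+* L) = finrank ℚ (F i) := fun i =>
    H204R3.CM.card_emb j (hj i)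
  have hpow : ∀ N : ℕ, 0 < N → ∀ x y : Σ i, (F i →+* L), val π x ^ N = val π y ^ N → x = y :=
    fun N hN x y h => pow_inj hrel hπ0 hN x y h
  obtain ⟨Ω, hΩ, ⟨jΩ⟩⟩ := exists_finite_ext k L
  have hirr' : ∀ i, Irreducible (ρ i γ).charpoly := fun i => by rw [hγ]; exact hirr i
  have hdist : ∀ i i', i ≠ i' → (ρ i γ).charpoly ≠ (ρ i' γ).charpoly := by
    intro i i' hii h
    rw [hγ, hγ] at h
    exact minpoly_ne π hgen hcardE hpow hii (Polynomial.map_injective _ (algebraMap ℚ k).injective h)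
  have hchar : (sumRep ρ γ).charpoly = ∏ i, (minpoly ℚ (π i)).map (algebraMap ℚ k) := by
    rw [sumRep_apply, charpoly_piEnd hirr' hdist]
    exact Finset.prod_congr rfl fun i _ => hγ i
  obtain ⟨s, hs, hcard, hN⟩ := exists_roots (Ω := Ω) π hgen hcardE hpow jΩ _ hchar
  have hss := semisimple_sum ρ γ hirr' hdist s hs hcard hN
  have hcm := commutant_sum ρ γ hirr' hdist s hs hcard hN hroot
  refine ⟨hss, ?_⟩
  have hneat : Neat p a π L := neat_of_only hw hrel
  have hSS : ∀ Δ : Subgroup Γ, Δ.FiniteIndex → SemiUnder (sumRep ρ '' (Δ : Set Γ)) := by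
    intro Δ hΔ U hU
    obtain ⟨U', h1, h2⟩ := hss Δ hΔ U (fun s hs u hu => hU _ ⟨s, hs, rfl⟩ u hu)
    refine ⟨U', ?_, h2⟩
    rintro _ ⟨s, hs, rfl⟩ u hu
    exact h1 s hs u hu
  intro s₀ t₀ c₀ d₀ hst f hf
  have hmain := homs_of (sumRep ρ) χ (sumForm ω) (sumForm_alt ω halt) (sumForm_nondeg ω hnd)
    (sumForm_sim ρ χ ω hωρ) (Set.range (partForm ω)) (fun m φ hφ => by
      have h1 := tate_of_neat ha hgen hw j hj hneat (sumRep ρ) χ (sumForm ω) (sumForm_alt ω halt)
        (sumForm_nondeg ω hnd) (sumForm_sim ρ χ ω hωρ) hSS γ hχ hchar φ hφ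
      refine Submodule.span_induction ?_ (Submodule.zero_mem _)
        (fun _ _ _ _ h1 h2 => Submodule.add_mem _ h1 h2) (fun c _ _ h => Submodule.smul_mem _ c h) h1
      rintro _ ⟨σ, B, hB, rfl⟩
      have h2 := mmG_mem_span σ (Set.range (partForm ω)) B fun l =>
        tate2_mem_span ρ χ ω halt hnd hωρ (fun Δ hΔ A hA => hcm Δ hΔ A hA) (B l) (hB l)
      refine Submodule.span_mono ?_ h2
      rintro _ ⟨B', hB', rfl⟩
      exact ⟨σ, B', hB', rfl⟩) s₀ t₀ c₀ d₀ hst f hf
  refine Submodule.span_mono ?_ hmain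
  rintro f' ⟨m, e, B, hB, hf'⟩
  choose u hu using hB
  refine ⟨m, e, u, fun x y => ?_⟩
  rw [hf']
  refine Finset.prod_congr rfl fun l _ => ?_
  rw [← hu l]

end Pool.Agent.Y114.TF
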