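import Mathlib
import Pool.Agent.TH888.B1.Roots

/-!
# Factorization of minimal polynomials over the `p`-adic numbers and Frobenius elements
-/

set_option autoImplicit false

namespace Pool.Agent.Y114.TF

open NumberField Polynomial Module Pool.Agent.W401.Cheb IntermediateField

section conj

variable {F L : Type} [Field F] [NumberField F] [Field L] [NumberField L]

/-- the conjugate of an integer -/
noncomputable def cj (θ : 𝓞 F) (x : F →+* L) : 𝓞 L := RingOfIntegers.mapRingHom x θ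

@[simp] theorem coe_cj (θ : 𝓞 F) (x : F →+* L) : ((cj θ x : 𝓞 L) : L) = x θ := rfl

/-- Outside finitely many primes the conjugates of `θ` are different modulo `p`. -/
theorem exists_D (θ : 𝓞 F) (hinj : ∀ x y : F →+* L, x (θ : F) = y (θ : F) → x = y) :
    ∃ D : ℕ, 0 < D ∧ ∀ (p : ℕ) [Fact p.Prime], ¬ p ∣ D →
      ∀ φ : 𝓞 L →+* AlgebraicClosure (ZMod p), ∀ x y : F →+* L,
        φ (cj θ x) = φ (cj θ y) → x = y := by
  classical
  let d : 𝓞 L := ∏ z ∈ (Finset.univ : Finset ((F →+* L) × (F →+* L))).filter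
    (fun z => z.1 ≠ z.2), (cj θ z.1 - cj θ z.2)
  have hd : d ≠ 0 := by
    rw [Finset.prod_ne_zero_iff]
    intro z hz
    rw [Finset.mem_filter] at hz
    intro h
    apply hz.2
    apply hinj
    rw [sub_eq_zero] at h
    exact congrArg (fun w : 𝓞 L => (w : L)) h
  let I : Ideal (𝓞 L) := Ideal.span {d}
  have hI : I ≠ ⊥ := by
    rw [Ne, Ideal.span_singleton_eq_bot]
    exact hd
  refine ⟨Ideal.absNorm I, Nat.pos_of_ne_zero (by rwa [Ne, Ideal.absNorm_eq_zero_iff]), ?_⟩
  intro p _ hp φ x y hxy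
  by_contra hne
  have h1 : φ d = 0 := by
    rw [map_prod]
    refine Finset.prod_eq_zero (i := (x, y)) ?_ ?_
    · rw [Finset.mem_filter]
      exact ⟨Finset.mem_univ _, hne⟩
    · rw [map_sub, hxy, sub_self]
  have h2 : (Ideal.absNorm I : 𝓞 L) ∈ I := Ideal.absNorm_mem I
  obtain ⟨c, hc⟩ := Ideal.mem_span_singleton'.1 h2
  have h3 : φ (Ideal.absNorm I : 𝓞 L) = 0 := by
    rw [← hc, map_mul, h1, mul_zero]
  rw [map_natCast] at h3
  exact hp ((CharP.cast_eq_zero_iff (AlgebraicClosure (ZMod p)) p _).1 h3)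

end conj

section

variable {F L : Type} [Field F] [NumberField F] [Field L] [NumberField L] [IsGalois ℚ L]

/-- The minimal polynomial over the integers. -/
theorem minpoly_map (θ : 𝓞 F) :
    minpoly ℚ (θ : F) = (minpoly ℤ (θ : F)).map (algebraMap ℤ ℚ) :=
  minpoly.isIntegrallyClosed_eq_field_fractions' ℚ (RingOfIntegers.isIntegral_coe θ)

theorem aeval_cj (θ : 𝓞 F) {p : ℕ} [Fact p.Prime] (φ : 𝓞 L →+* AlgebraicClosure (ZMod p))
    (x : F →+* L) :
    aeval (φ (cj θ x)) ((minpoly ℤ (θ : F)).map (Int.castRingHom (ZMod p))) = 0 := by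
  have h1 : aeval (cj θ x) (minpoly ℤ (θ : F)) = 0 := by
    apply RingOfIntegers.coe_injective
    have h2 : algebraMap (𝓞 L) L (aeval (cj θ x) (minpoly ℤ (θ : F))) =
        aeval (x (θ : F)) (minpoly ℤ (θ : F)) := by
      rw [← aeval_algebraMap_apply]
      rfl
    have h3 : aeval (x (θ : F)) (minpoly ℤ (θ : F)) = 0 := by
      have h4 := minpoly.aeval ℤ (θ : F)
      have h5 := congrArg x h4
      rw [map_zero] at h5
      rw [← h5]
      have := aeval_algHom_apply (x.toIntAlgHom) (θ : F) (minpoly ℤ (θ : F))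
      simpa using this
    rw [map_zero]
    exact h2.trans h3
  have h6 := congrArg φ h1
  rw [map_zero, aeval_def, hom_eval₂] at h6
  rw [aeval_def, eval₂_map, ← h6]
  congr 1
  exact RingHom.ext_int _ _

omit [NumberField L] [IsGalois ℚ L] in
/-- The images of the conjugates modulo `p` under Frobenius. -/
theorem cj_pow [NumberField L] (θ : 𝓞 F) {p : ℕ} [Fact p.Prime] {φ : 𝓞 L →+* AlgebraicClosure (ZMod p)}
    {σ : Gal(L/ℚ)} (hφ : HasFrob p φ σ) (x y : F →+* L) (hxy : ∀ z, σ (x z) = y z) :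
    φ (cj θ y) = φ (cj θ x) ^ p := by
  rw [← hφ]
  congr 1
  apply RingOfIntegers.coe_injective
  change y (θ : F) = σ (x (θ : F))
  exact (hxy _).symm

/-- **Irreducibility.** If the cyclic group generated by `σ` is transitive on the embeddings of
`F = ℚ(θ)`, then at almost all primes `p` with Frobenius element `σ` the minimal polynomial of `θ` is
irreducible over the field of `p`-adic numbers. -/
theorem irreducible_of_transitive (θ : 𝓞 F) (hθ : ℚ⟮(θ : F)⟯ = ⊤)
    (hcard : Fintype.card (F →+* L) = finrank ℚ F) :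
    ∃ D : ℕ, 0 < D ∧ ∀ (p : ℕ) [Fact p.Prime], ¬ p ∣ D → ∀ σ : Gal(L/ℚ), xp L σ p ≠ 0 →
      (∀ x y : F →+* L, ∃ k : ℕ, ∀ z, (σ ^ k) (x z) = y z) →
      Irreducible ((minpoly ℚ (θ : F)).map (algebraMap ℚ ℚ_[p])) := by
  classical
  have hinj : ∀ x y : F →+* L, x (θ : F) = y (θ : F) → x = y := by
    intro x y hxy
    have h1 : RingHom.equivRatAlgHom F L x = RingHom.equivRatAlgHom F L y := by
      have hθ' : IntermediateField.adjoin ℚ {(θ : F)} = ⊤ := hθ
      have h2 : (Field.powerBasisOfFiniteOfSeparable ℚ F) = Field.powerBasisOfFiniteOfSeparable ℚ F := rfl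
      refine AlgHom.ext fun z => ?_
      have hz : z ∈ IntermediateField.adjoin ℚ {(θ : F)} := by rw [hθ']; trivial
      induction hz using IntermediateField.adjoin_induction with
      | mem w hw =>
        rw [Set.mem_singleton_iff] at hw
        rw [hw]
        exact hxy
      | algebraMap w => rw [AlgHom.commutes, AlgHom.commutes]
      | add a b _ _ ha hb => rw [map_add, map_add, ha, hb]
      | inv a _ ha => rw [map_inv₀, map_inv₀, ha]
      | mul a b _ _ ha hb => rw [map_mul, map_mul, ha, hb]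
    exact (RingHom.equivRatAlgHom F L).injective h1
  obtain ⟨D, hD, hD'⟩ := exists_D (L := L) θ hinj
  refine ⟨D, hD, fun p _ hp σ hσ htr => ?_⟩
  obtain ⟨φ, hφ⟩ := TH888.B1.exists_hom σ (Fact.out : p.Prime) hσ
  have hdist := hD' p hp φ
  set K := AlgebraicClosure (ZMod p)
  set f : ℤ[X] := minpoly ℤ (θ : F) with hf
  have hfm : f.Monic := minpoly.monic (RingOfIntegers.isIntegral_coe θ)
  have hdeg : f.natDegree = finrank ℚ F := by
    have h1 := (Field.primitive_element_iff_minpoly_natDegree_eq ℚ (θ : F)).1 hθ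
    rw [minpoly_map, hfm.natDegree_map] at h1
    exact h1
  -- the reduction
  set fp : (ZMod p)[X] := f.map (Int.castRingHom (ZMod p)) with hfp
  have hfpm : fp.Monic := hfm.map _
  have hne : Nonempty (F →+* L) := by
    rw [← Fintype.card_pos_iff, hcard]
    exact finrank_pos
  obtain ⟨x₀⟩ := hne
  set g : (ZMod p)[X] := minpoly (ZMod p) (φ (cj θ x₀)) with hg
  have hint : IsIntegral (ZMod p) (φ (cj θ x₀)) := Algebra.IsIntegral.isIntegral _
  have hgf : g ∣ fp := minpoly.dvd _ _ (aeval_cj θ φ x₀)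
  have hroot : ∀ y : F →+* L, aeval (φ (cj θ y)) g = 0 := by
    intro y
    obtain ⟨k, hk⟩ := htr x₀ y
    -- `φ (cj θ y) = φ (cj θ x₀) ^ (p ^ k)`
    have h1 : ∀ (k : ℕ) (y : F →+* L), (∀ z, (σ ^ k) (x₀ z) = y z) →
        φ (cj θ y) = φ (cj θ x₀) ^ (p ^ k) := by
      intro k
      induction k with
      | zero =>
        intro y hy
        have : y = x₀ := by
          ext z
          exact (hy z).symm
        rw [this, pow_zero, pow_one]
      | succ k ih =>
        intro y hy
        let y' : F →+* L := ((σ ^ k : Gal(L/ℚ)) : L →+* L).comp x₀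
        rw [cj_pow θ hφ y' y (fun z => by
          rw [← hy z, pow_succ']
          rfl), ih y' (fun z => rfl), ← pow_mul, pow_succ]
    rw [h1 k y hk]
    have h2 : ∀ (k : ℕ) (a : K), aeval a g = 0 → aeval (a ^ p ^ k) g = 0 := by
      intro k
      induction k with
      | zero => intro a ha; rwa [pow_zero, pow_one]
      | succ k ih =>
        intro a ha
        have h3 := ih a ha
        rw [pow_succ, pow_mul]
        have h4 := congrArg (frobenius K p) h3
        rw [map_zero, aeval_def, hom_eval₂] at h4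
        rw [aeval_def, ← h4]
        congr 1
        exact Subsingleton.elim _ _
    exact h2 k _ (minpoly.aeval _ _)
  have hcardg : finrank ℚ F ≤ g.natDegree := by
    have hg0 : g.map (algebraMap (ZMod p) K) ≠ 0 := ((minpoly.monic hint).map _).ne_zero
    rw [← hcard, ← natDegree_map (algebraMap (ZMod p) K) (p := g)]
    refine le_trans ?_ (card_roots' _)
    refine le_trans ?_ (Multiset.toFinset_card_le _)
    rw [← Finset.card_univ]
    refine Finset.card_le_card_of_injOn (fun y => φ (cj θ y)) ?_ ?_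
    · intro y _
      rw [Finset.mem_coe, Multiset.mem_toFinset, mem_roots hg0, IsRoot, eval_map_algebraMap]
      exact hroot y
    · intro y _ y' _ h
      exact hdist y y' h
  have hfg : fp = g := by
    refine (eq_of_monic_of_dvd_of_natDegree_le (minpoly.monic hint) hfpm hgf ?_)
    rw [hfp, hfm.natDegree_map, hdeg]
    exact hcardg
  have hirr : Irreducible fp := by
    rw [hfg]
    exact minpoly.irreducible hint
  -- lift to the `p`-adic integers
  set fz : ℤ_[p][X] := f.map (Int.castRingHom ℤ_[p]) with hfz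
  have hfzm : fz.Monic := hfm.map _
  have h1 : fz.map (PadicInt.toZMod (p := p)) = fp := by
    rw [hfz, Polynomial.map_map]
    congr 1
    exact RingHom.ext_int _ _
  have h2 : Irreducible fz := by
    refine hfzm.irreducible_of_irreducible_map (PadicInt.toZMod (p := p)) fz ?_
    rw [h1]
    exact hirr
  have h3 := (hfzm.irreducible_iff_irreducible_map_fraction_map (K := ℚ_[p])).1 h2
  rw [minpoly_map, Polynomial.map_map]
  rw [hfz, Polynomial.map_map] at h3
  convert h3 using 2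
  exact RingHom.ext_int _ _

/-- **Roots.** If `σ` fixes an embedding of `F = ℚ(θ)`, then at almost all primes `p` with Frobenius
element `σ` the minimal polynomial of `θ` has a root in the field of `p`-adic numbers. -/
theorem root_of_fixed (θ : 𝓞 F) (hθ : ℚ⟮(θ : F)⟯ = ⊤)
    (hcard : Fintype.card (F →+* L) = finrank ℚ F) :
    ∃ D : ℕ, 0 < D ∧ ∀ (p : ℕ) [Fact p.Prime], ¬ p ∣ D → ∀ σ : Gal(L/ℚ), xp L σ p ≠ 0 →
      ∀ x : F →+* L, (∀ z, σ (x z) = x z) →
      ∃ β : ℚ_[p], aeval β (minpoly ℚ (θ : F)) = 0 := by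
  classical
  have hinj : ∀ x y : F →+* L, x (θ : F) = y (θ : F) → x = y := by
    intro x y hxy
    have h1 : RingHom.equivRatAlgHom F L x = RingHom.equivRatAlgHom F L y := by
      have hθ' : IntermediateField.adjoin ℚ {(θ : F)} = ⊤ := hθ
      refine AlgHom.ext fun z => ?_
      have hz : z ∈ IntermediateField.adjoin ℚ {(θ : F)} := by rw [hθ']; trivial
      induction hz using IntermediateField.adjoin_induction with
      | mem w hw =>
        rw [Set.mem_singleton_iff] at hw
        rw [hw]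
        exact hxy
      | algebraMap w => rw [AlgHom.commutes, AlgHom.commutes]
      | add a b _ _ ha hb => rw [map_add, map_add, ha, hb]
      | inv a _ ha => rw [map_inv₀, map_inv₀, ha]
      | mul a b _ _ ha hb => rw [map_mul, map_mul, ha, hb]
    exact (RingHom.equivRatAlgHom F L).injective h1
  obtain ⟨D, hD, hD'⟩ := exists_D (L := L) θ hinj
  refine ⟨D, hD, fun p _ hp σ hσ x hx => ?_⟩
  obtain ⟨φ, hφ⟩ := TH888.B1.exists_hom σ (Fact.out : p.Prime) hσ
  have hdist := hD' p hp φ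
  set K := AlgebraicClosure (ZMod p)
  set f : ℤ[X] := minpoly ℤ (θ : F) with hf
  have hfm : f.Monic := minpoly.monic (RingOfIntegers.isIntegral_coe θ)
  have hdeg : f.natDegree = finrank ℚ F := by
    have h1 := (Field.primitive_element_iff_minpoly_natDegree_eq ℚ (θ : F)).1 hθ
    rw [minpoly_map, hfm.natDegree_map] at h1
    exact h1
  set fp : (ZMod p)[X] := f.map (Int.castRingHom (ZMod p)) with hfp
  have hfpm : fp.Monic := hfm.map _
  obtain ⟨a, ha⟩ := W54.ChTor.frob_fixed p (φ (cj θ x)) (cj_pow θ hφ x x hx).symm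
  -- the reduction has distinct roots
  have hK0 : fp.map (algebraMap (ZMod p) K) ≠ 0 := (hfpm.map _).ne_zero
  have hroots : (Finset.univ.image fun y : F →+* L => φ (cj θ y)).val =
      (fp.map (algebraMap (ZMod p) K)).roots := by
    refine Multiset.eq_of_le_of_card_le ?_ ?_
    · rw [Multiset.le_iff_subset (Finset.nodup _)]
      intro z hz
      rw [Finset.mem_val, Finset.mem_image] at hz
      obtain ⟨y, -, rfl⟩ := hz
      rw [mem_roots hK0, IsRoot, eval_map_algebraMap]
      exact aeval_cj θ φ y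
    · rw [Finset.card_val, Finset.card_image_of_injective _ (fun y y' h => hdist y y' h),
        Finset.card_univ, hcard]
      refine (card_roots' _).trans ?_
      rw [natDegree_map, hfp, hfm.natDegree_map, hdeg]
  have hsep : fp.eval a = 0 ∧ (derivative fp).eval a ≠ 0 := by
    have h1 : fp.eval a = 0 := by
      apply (algebraMap (ZMod p) K).injective
      rw [map_zero, ← eval_map_apply, ha, eval_map_algebraMap]
      exact aeval_cj θ φ x
    refine ⟨h1, fun h2 => ?_⟩
    have h3 : 1 < fp.rootMultiplicity a :=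
      (one_lt_rootMultiplicity_iff_isRoot hfpm.ne_zero).2 ⟨h1, h2⟩
    rw [eq_rootMultiplicity_map (algebraMap (ZMod p) K).injective, ← count_roots, ← hroots] at h3
    exact absurd (Multiset.nodup_iff_count_le_one.1 (Finset.nodup _) _) (not_le.2 h3)
  -- Hensel
  set fz : ℤ_[p][X] := f.map (Int.castRingHom ℤ_[p]) with hfz
  have hmap : fz.map (PadicInt.toZMod (p := p)) = fp := by
    rw [hfz, Polynomial.map_map]
    congr 1
    exact RingHom.ext_int _ _
  obtain ⟨b, hb⟩ := ZMod.ringHom_surjective (PadicInt.toZMod (p := p)) a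
  have h4 : ‖fz.eval b‖ < 1 := by
    rw [PadicInt.norm_lt_one_iff_dvd, ← Ideal.mem_span_singleton,
      ← PadicInt.maximalIdeal_eq_span_p, ← PadicInt.ker_toZMod, RingHom.mem_ker,
      ← eval_map_apply, hmap, hb]
    exact hsep.1
  have h5 : ‖(derivative fz).eval b‖ = 1 := by
    by_contra hne
    have h6 : ‖(derivative fz).eval b‖ < 1 := lt_of_le_of_ne (PadicInt.norm_le_one _) hne
    rw [PadicInt.norm_lt_one_iff_dvd, ← Ideal.mem_span_singleton,
      ← PadicInt.maximalIdeal_eq_span_p, ← PadicInt.ker_toZMod, RingHom.mem_ker,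
      ← eval_map_apply, ← derivative_map, hmap, hb] at h6
    exact hsep.2 h6
  have hae : ∀ (q : ℤ_[p][X]) (c : ℤ_[p]), aeval c q = q.eval c := by
    intro q c
    rw [coe_aeval_eq_eval]
  obtain ⟨z, hz, -⟩ := hensels_lemma (F := fz) (a := b) (by
    rw [hae, hae, h5, one_pow]
    exact h4)
  refine ⟨(z : ℚ_[p]), ?_⟩
  have h7 := congrArg (algebraMap ℤ_[p] ℚ_[p]) hz
  rw [hae, map_zero, ← eval_map_apply, hfz, Polynomial.map_map] at h7
  rw [minpoly_map, ← eval_map_algebraMap, Polynomial.map_map]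
  refine Eq.trans ?_ h7
  change eval ((algebraMap ℤ_[p] ℚ_[p]) z) _ = _
  congr 2

end

section scale

variable {F : Type} [Field F] [NumberField F]

theorem exists_integer (π : F) : ∃ (c : ℚ) (θ : 𝓞 F), c ≠ 0 ∧ (θ : F) = (c : F) * π := by
  have h0 : IsAlgebraic ℤ π := by
    have := IsLocalization.isAlgebraic (R := ℤ) ℚ (nonZeroDivisors ℤ)
    have : Algebra.IsAlgebraic ℤ F := Algebra.IsAlgebraic.trans ℤ ℚ F
    exact Algebra.IsAlgebraic.isAlgebraic π
  obtain ⟨c, hc, hi⟩ := h0.exists_integral_multiple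
  refine ⟨c, ⟨c • π, hi⟩, by exact_mod_cast hc, ?_⟩
  rw [Rat.cast_intCast, ← zsmul_eq_mul]
  rfl

theorem assoc_scale (π : F) (hπ : ℚ⟮π⟯ = ⊤) (c : ℚ) (hc : c ≠ 0) :
    ℚ⟮(c : F) * π⟯ = ⊤ ∧ Associated (minpoly ℚ π) ((minpoly ℚ ((c : F) * π)).comp (C c * X)) := by
  have hgen : ℚ⟮(c : F) * π⟯ = ⊤ := by
    rw [eq_top_iff, ← hπ, IntermediateField.adjoin_le_iff, Set.singleton_subset_iff]
    have h1 : (c : F) * π ∈ ℚ⟮(c : F) * π⟯ := IntermediateField.mem_adjoin_simple_self ℚ _
    have h2 : (algebraMap ℚ F c⁻¹) * ((c : F) * π) ∈ ℚ⟮(c : F) * π⟯ :=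
      mul_mem (IntermediateField.algebraMap_mem _ _) h1
    have h3 : (algebraMap ℚ F c⁻¹) * ((c : F) * π) = π := by
      rw [← mul_assoc, eq_ratCast, ← Rat.cast_mul, inv_mul_cancel₀ hc, Rat.cast_one, one_mul]
    rw [h3] at h2
    exact h2
  refine ⟨hgen, ?_⟩
  have hmc : (minpoly ℚ ((c : F) * π)).Monic := minpoly.monic (Algebra.IsIntegral.isIntegral _)
  have h1 : minpoly ℚ π ∣ (minpoly ℚ ((c : F) * π)).comp (C c * X) := by
    apply minpoly.dvd
    rw [aeval_comp, map_mul, aeval_C, aeval_X, eq_ratCast]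
    exact minpoly.aeval _ _
  have hlin : (C c * X : ℚ[X]).natDegree = 1 := natDegree_C_mul_X c hc
  have h2 : ((minpoly ℚ ((c : F) * π)).comp (C c * X)).natDegree = (minpoly ℚ π).natDegree := by
    rw [natDegree_comp, hlin, mul_one, (Field.primitive_element_iff_minpoly_natDegree_eq ℚ _).1 hπ,
      (Field.primitive_element_iff_minpoly_natDegree_eq ℚ _).1 hgen]
  have h3 : (minpoly ℚ ((c : F) * π)).comp (C c * X) ≠ 0 := by
    intro h
    rw [h, natDegree_zero, (Field.primitive_element_iff_minpoly_natDegree_eq ℚ _).1 hπ] at h2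
    exact absurd h2.symm finrank_pos.ne'
  exact associated_of_dvd_of_natDegree_le h1 h3 h2.le

theorem irreducible_scale {k : Type} [Field k] [Algebra ℚ k] (π : F) (hπ : ℚ⟮π⟯ = ⊤) (c : ℚ)
    (hc : c ≠ 0) (h : Irreducible ((minpoly ℚ ((c : F) * π)).map (algebraMap ℚ k))) :
    Irreducible ((minpoly ℚ π).map (algebraMap ℚ k)) := by
  obtain ⟨-, h1⟩ := assoc_scale π hπ c hc
  have h2 := h1.map (Polynomial.mapRingHom (algebraMap ℚ k))
  have hc' : algebraMap ℚ k c ≠ 0 := by
    rw [Ne, map_eq_zero]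
    exact hc
  have : Invertible (algebraMap ℚ k c) := invertibleOfNonzero hc'
  rw [coe_mapRingHom, Polynomial.map_comp, Polynomial.map_mul, map_C, map_X] at h2
  refine h2.symm.irreducible ?_
  have h3 := (MulEquiv.irreducible_iff (algEquivCMulXAddC (algebraMap ℚ k c) 0)).2 h
  rw [algEquivCMulXAddC_apply, C_0, add_zero] at h3
  convert h3 using 1
  rw [comp_eq_aeval]

theorem root_scale {k : Type} [Field k] [Algebra ℚ k] (π : F) (hπ : ℚ⟮π⟯ = ⊤) (c : ℚ)
    (hc : c ≠ 0) (β : k) (h : aeval β (minpoly ℚ ((c : F) * π)) = 0) :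
    ∃ β' : k, aeval β' (minpoly ℚ π) = 0 := by
  obtain ⟨-, h1⟩ := assoc_scale π hπ c hc
  have hc' : algebraMap ℚ k c ≠ 0 := by
    rw [Ne, map_eq_zero]
    exact hc
  refine ⟨(algebraMap ℚ k c)⁻¹ * β, ?_⟩
  obtain ⟨q, hq⟩ := h1.symm.dvd
  rw [hq, map_mul, aeval_comp, map_mul, aeval_C, aeval_X, ← mul_assoc, mul_inv_cancel₀ hc', one_mul,
    h, zero_mul]

end scale

section final

variable {F L : Type} [Field F] [NumberField F] [Field L] [NumberField L] [IsGalois ℚ L]

/-- **Irreducibility**, for all generators of the field. -/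
theorem irreducible_gen (π : F) (hπ : ℚ⟮π⟯ = ⊤) (hcard : Fintype.card (F →+* L) = finrank ℚ F) :
    ∃ D : ℕ, 0 < D ∧ ∀ (p : ℕ) [Fact p.Prime], ¬ p ∣ D → ∀ σ : Gal(L/ℚ), xp L σ p ≠ 0 →
      (∀ x y : F →+* L, ∃ k : ℕ, ∀ z, (σ ^ k) (x z) = y z) →
      Irreducible ((minpoly ℚ π).map (algebraMap ℚ ℚ_[p])) := by
  obtain ⟨c, θ, hc, hθ⟩ := exists_integer π
  obtain ⟨h1, -⟩ := assoc_scale π hπ c hc
  rw [← hθ] at h1
  obtain ⟨D, hD, h2⟩ := irreducible_of_transitive (L := L) θ h1 hcard
  refine ⟨D, hD, fun p _ hp σ hσ htr => irreducible_scale π hπ c hc ?_⟩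
  rw [← hθ]
  exact h2 p hp σ hσ htr

/-- **Roots**, for all generators of the field. -/
theorem root_gen (π : F) (hπ : ℚ⟮π⟯ = ⊤) (hcard : Fintype.card (F →+* L) = finrank ℚ F) :
    ∃ D : ℕ, 0 < D ∧ ∀ (p : ℕ) [Fact p.Prime], ¬ p ∣ D → ∀ σ : Gal(L/ℚ), xp L σ p ≠ 0 →
      ∀ x : F →+* L, (∀ z, σ (x z) = x z) →
      ∃ β : ℚ_[p], aeval β (minpoly ℚ π) = 0 := by
  obtain ⟨c, θ, hc, hθ⟩ := exists_integer π
  obtain ⟨h1, -⟩ := assoc_scale π hπ c hc
  rw [← hθ] at h1
  obtain ⟨D, hD, h2⟩ := root_of_fixed (L := L) θ h1 hcard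
  refine ⟨D, hD, fun p _ hp σ hσ x hx => ?_⟩
  obtain ⟨β, hβ⟩ := h2 p hp σ hσ x hx
  rw [hθ] at hβ
  exact root_scale π hπ c hc β hβ

end final

end Pool.Agent.Y114.TF
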