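import Mathlib
import Pool.Agent.W401.Cheb.Main
import Pool.Agent.Y114.TF.Defs

/-!
# The natural density of the primes with Frobenius element in a conjugacy invariant set
-/

set_option autoImplicit false

namespace Pool.Agent.Y114.TF

open NumberField Filter Topology Pool.Agent.W401.Cheb


theorem proportion_eq_M (P : ℕ → Prop) (N : ℕ) : proportion P N =
    M (fun p => open scoped Classical in if P p then (1 : ℝ) else 0) N := by
  classical
  unfold proportion M pr
  rw [Finset.sum_ite, Finset.sum_const_zero, add_zero, Finset.sum_const, nsmul_eq_mul, mul_one,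
    Finset.filter_filter]

theorem proportion_mono {P Q : ℕ → Prop} (h : ∀ p, p.Prime → P p → Q p) (N : ℕ) :
    proportion P N ≤ proportion Q N := by
  classical
  rw [proportion_eq_M, proportion_eq_M]
  refine M_mono (fun p hp => ?_) N
  split_ifs with h1 h2 h2
  · exact le_rfl
  · exact absurd (h p hp h1) h2
  · exact zero_le_one
  · exact le_rfl

/-- If `P` implies `Q` at all primes not dividing `D`, and the natural density of `P` is `c`, then
the lower density of `Q` is at least `c`. -/
theorem lower_of_tendsto {P Q : ℕ → Prop} {D : ℕ} (hD : 0 < D)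
    (h : ∀ p, p.Prime → ¬ p ∣ D → P p → Q p) {c : ℝ}
    (hP : Tendsto (proportion P) atTop (𝓝 c)) (ε : ℝ) (hε : 0 < ε) :
    ∀ᶠ N in atTop, c - ε < proportion Q N := by
  classical
  have h1 : Tendsto (M fun p => if P p ∧ Q p then (1 : ℝ) else 0) atTop (𝓝 c) := by
    have h2 : Tendsto (M fun p => if P p then (1 : ℝ) else 0) atTop (𝓝 c) := by
      refine hP.congr fun N => ?_
      rw [proportion_eq_M]
    refine M_congr hD ?_ h2
    intro p hp hpD
    by_cases hPp : P p
    · rw [if_pos ⟨hPp, h p hp hpD hPp⟩, if_pos hPp]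
    · rw [if_neg (fun h => hPp h.1), if_neg hPp]
  have h2 := h1.eventually (lt_mem_nhds (show c - ε < c by linarith))
  filter_upwards [h2] with N hN
  refine lt_of_lt_of_le hN ?_
  rw [proportion_eq_M]
  refine M_mono (fun p _ => ?_) N
  by_cases hQ : Q p
  · rw [if_pos hQ]
    split_ifs <;> norm_num
  · rw [if_neg hQ, if_neg (fun h => hQ h.2)]

/-- Chebotarev's density theorem for conjugacy invariant sets. -/
theorem dens_class (L : Type) [Field L] [NumberField L] [IsGalois ℚ L] (C : Finset Gal(L/ℚ))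
    (hC : ∀ σ ∈ C, ∀ τ : Gal(L/ℚ), τ * σ * τ⁻¹ ∈ C) :
    Tendsto (proportion fun p => ∃ σ ∈ C, xp L σ p ≠ 0) atTop
      (𝓝 ((C.card : ℝ) / (Nat.card Gal(L/ℚ) : ℝ))) := by
  classical
  obtain ⟨D, hD, hTor⟩ := torsor L
  have hG : (0 : ℝ) < Nat.card Gal(L/ℚ) := by exact_mod_cast Nat.card_pos
  have h1 : Tendsto (M fun p => ∑ g ∈ C, (xp L g p : ℝ)) atTop (𝓝 (C.card : ℝ)) := by
    have h2 : Tendsto (fun N => ∑ g ∈ C, M (fun p => (xp L g p : ℝ)) N) atTop
        (𝓝 (∑ g ∈ C, (1 : ℝ))) := tendsto_finsetSum C fun g _ => chebotarev L g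
    rw [Finset.sum_const, nsmul_eq_mul, mul_one] at h2
    refine h2.congr fun N => ?_
    exact (M_sum C (fun g p => (xp L g p : ℝ)) N).symm
  have h3 : Tendsto (M fun p => (Nat.card Gal(L/ℚ) : ℝ) *
      (if ∃ σ ∈ C, xp L σ p ≠ 0 then 1 else 0)) atTop (𝓝 (C.card : ℝ)) := by
    refine M_congr hD ?_ h1
    intro p hp hpD
    have : Fact p.Prime := ⟨hp⟩
    obtain ⟨hcard, htor, -⟩ := hTor p hpD
    have hx : ∀ g, xp L g p = Nat.card {φ : 𝓞 L →+* AlgebraicClosure (ZMod p) // HasFrob p φ g} := by
      intro g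
      unfold xp
      rw [dif_pos hp]
    have hfin : Finite (𝓞 L →+* AlgebraicClosure (ZMod p)) := by
      apply Nat.finite_of_card_ne_zero
      rw [hcard]
      exact Nat.card_pos.ne'
    by_cases hex : ∃ σ ∈ C, xp L σ p ≠ 0
    · rw [if_pos hex, mul_one]
      obtain ⟨σ, hσ, hσp⟩ := hex
      rw [hx] at hσp
      have hne : Nonempty {φ : 𝓞 L →+* AlgebraicClosure (ZMod p) // HasFrob p φ σ} := by
        by_contra h
        rw [not_nonempty_iff] at h
        exact hσp Nat.card_of_isEmpty
      obtain ⟨φ, hφ⟩ := hne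
      -- every homomorphism has exactly one Frobenius element, in `C`
      have hall : ∀ φ' : 𝓞 L →+* AlgebraicClosure (ZMod p), ∃ g ∈ C, HasFrob p φ' g := by
        intro φ'
        obtain ⟨τ, hτ, -⟩ := htor φ φ'
        refine ⟨τ⁻¹ * σ * τ, ?_, ?_⟩
        · have := hC σ hσ τ⁻¹
          rwa [inv_inv] at this
        · intro x
          rw [hτ, hτ, ← hφ, smul_smul, smul_smul]
          congr 2
          group
      have huniq : ∀ (φ' : 𝓞 L →+* AlgebraicClosure (ZMod p)) (g g' : Gal(L/ℚ)),
          HasFrob p φ' g → HasFrob p φ' g' → g = g' := by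
        intro φ' g g' hg hg'
        let ψ : 𝓞 L →+* AlgebraicClosure (ZMod p) := (frobenius _ p).comp φ'
        obtain ⟨τ, -, huni⟩ := htor φ' ψ
        rw [huni g (fun x => by
          change (φ' x) ^ p = _
          exact (hg x).symm), huni g' (fun x => by
          change (φ' x) ^ p = _
          exact (hg' x).symm)]
      have hcount : ∑ g ∈ C, xp L g p = Nat.card Gal(L/ℚ) := by
        rw [← hcard]
        have hft : Fintype (𝓞 L →+* AlgebraicClosure (ZMod p)) := Fintype.ofFinite _
        rw [Nat.card_eq_fintype_card]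
        choose fr hfr1 hfr2 using hall
        have h5 : ∀ g ∈ C, xp L g p =
            (Finset.univ.filter fun φ' : 𝓞 L →+* AlgebraicClosure (ZMod p) => fr φ' = g).card := by
          intro g _
          rw [hx, Nat.card_eq_fintype_card, Fintype.card_subtype]
          congr 1
          ext φ'
          rw [Finset.mem_filter, Finset.mem_filter]
          refine and_congr_right fun _ => ?_
          constructor
          · intro h6
            exact huniq φ' _ _ (hfr2 φ') h6
          · rintro rfl
            exact hfr2 φ'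
        rw [Finset.sum_congr rfl h5]
        exact (Finset.card_eq_sum_card_fiberwise (f := fr) (s := Finset.univ)
          (t := C) (fun φ' _ => hfr1 φ')).symm
      rw [← Nat.cast_sum, hcount]
    · rw [if_neg hex, mul_zero]
      symm
      refine Finset.sum_eq_zero fun g hg => ?_
      by_contra h
      exact hex ⟨g, hg, fun h' => h (by rw [h']; simp)⟩
  have h4 := h3.const_mul ((Nat.card Gal(L/ℚ) : ℝ)⁻¹)
  rw [show (Nat.card Gal(L/ℚ) : ℝ)⁻¹ * (C.card : ℝ) = (C.card : ℝ) / (Nat.card Gal(L/ℚ) : ℝ) by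
    rw [div_eq_mul_inv, mul_comm]] at h4
  refine h4.congr fun N => ?_
  rw [proportion_eq_M, M_smul, ← mul_assoc, inv_mul_cancel₀ hG.ne', one_mul]
  congr!

end Pool.Agent.Y114.TF
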