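import Mathlib
import Pool.Agent.Y114.TF.Dens
import Pool.Agent.Y114.TF.Arith
import Pool.Agent.Y114.TF.Local3

/-!
# The Tate conjecture at a set of primes of positive density, from finitely many Frobenius elements
-/

set_option autoImplicit false
set_option linter.unusedSectionVars false

namespace Pool.Agent.Y114.TF

open NumberField Module Polynomial Pool.Agent.H204R3.GP IntermediateField Filter Topology
open Pool.Agent.W401.Cheb

/-- All embeddings into the complex numbers factor through `L`. -/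
theorem exists_comp {F L : Type} [Field F] [NumberField F] [Field L] [NumberField L]
    (h : Fintype.card (F →+* L) = finrank ℚ F) (j₀ : L →+* ℂ) (ψ : F →+* ℂ) :
    ∃ φ : F →+* L, j₀.comp φ = ψ := by
  classical
  have hinj : Function.Injective (fun φ : F →+* L => j₀.comp φ) := by
    intro φ φ' hh
    ext x
    exact j₀.injective (RingHom.congr_fun hh x)
  have hbij : Function.Bijective (fun φ : F →+* L => j₀.comp φ) := by
    rw [Fintype.bijective_iff_injective_and_card]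
    exact ⟨hinj, by rw [h, Embeddings.card F ℂ]⟩
  exact hbij.2 ψ

theorem main {ι : Type} [Fintype ι] {n : ι → ℕ} {Γ : Type} [Group Γ] (R : Realizations n Γ)
    {J : Type} [Fintype J] (F : J → ι → Type) [∀ j i, Field (F j i)] [∀ j i, NumberField (F j i)]
    [∀ j i, IsCMField (F j i)] (p a : J → ℕ) (π : ∀ j i, F j i) (γ : J → Γ)
    (hγ' : ∀ j, R.IsFrobenius (γ j) (p j) (a j) (π j))
    (L : Type) [Field L] [NumberField L] [IsGalois ℚ L]
    (hcard : ∀ j i, Fintype.card (F j i →+* L) = finrank ℚ (F j i))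
    (hrel : ∀ j, OnlyTrivialRelations (π j) L) (ε : ℝ) (hε : 0 < ε) :
    ∀ᶠ N in atTop, (Nat.card {σ : Gal(L/ℚ) // IsGood F σ} : ℝ) / (Nat.card Gal(L/ℚ) : ℝ) - ε <
      proportion R.TateAt N := by
  classical
  obtain ⟨j₀⟩ : Nonempty (L →+* ℂ) := inferInstance
  have hL : ∀ j i, ∀ ψ : F j i →+* ℂ, ∃ φ : F j i →+* L, j₀.comp φ = ψ :=
    fun j i ψ => exists_comp (hcard j i) j₀ ψ
  have hp : ∀ j, (p j).Prime := fun j => (hγ' j).1
  have ha : ∀ j, 0 < a j := fun j => (hγ' j).2.1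
  have hgen : ∀ j i, ℚ⟮π j i⟯ = ⊤ := fun j => (hγ' j).2.2.1
  have hweil := fun j => (hγ' j).2.2.2.1
  have hχ : ∀ (ℓ : ℕ) [Fact ℓ.Prime] (j : J), ℓ ≠ p j → R.χ ℓ (γ j) = (p j : ℚ_[ℓ]) ^ a j :=
    fun ℓ _ j h => ((hγ' j).2.2.2.2 ℓ h).1
  have hγ : ∀ (ℓ : ℕ) [Fact ℓ.Prime] (j : J) (i : ι), ℓ ≠ p j →
      (R.ρ ℓ i (γ j)).charpoly = (minpoly ℚ (π j i)).map (algebraMap ℚ ℚ_[ℓ]) :=
    fun ℓ _ j i h => ((hγ' j).2.2.2.2 ℓ h).2 i
  choose D1 hD1 hirr using fun j i => irreducible_gen (L := L) (π j i) (hgen j i) (hcard j i)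
  choose D2 hD2 hrt using fun j i => root_gen (L := L) (π j i) (hgen j i) (hcard j i)
  let D : ℕ := (∏ j, ∏ i, D1 j i) * (∏ j, ∏ i, D2 j i) * ∏ j, p j
  have hD : 0 < D := by
    refine Nat.mul_pos (Nat.mul_pos ?_ ?_) ?_
    · exact Finset.prod_pos fun j _ => Finset.prod_pos fun i _ => hD1 j i
    · exact Finset.prod_pos fun j _ => Finset.prod_pos fun i _ => hD2 j i
    · exact Finset.prod_pos fun j _ => (hp j).pos
  let C : Finset Gal(L/ℚ) := Finset.univ.filter fun σ => IsGood F σ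
  have hC : ∀ σ ∈ C, ∀ τ : Gal(L/ℚ), τ * σ * τ⁻¹ ∈ C := by
    intro σ hσ τ
    rw [Finset.mem_filter] at hσ ⊢
    refine ⟨Finset.mem_univ _, ?_, ?_⟩
    · obtain ⟨j, hj⟩ := hσ.2.1
      refine ⟨j, fun i x y => ?_⟩
      obtain ⟨k, hk⟩ := hj i (((τ⁻¹ : Gal(L/ℚ)) : L →+* L).comp x)
        (((τ⁻¹ : Gal(L/ℚ)) : L →+* L).comp y)
      refine ⟨k, fun z => ?_⟩
      have h1 : (τ * σ * τ⁻¹) ^ k = τ * σ ^ k * τ⁻¹ := conj_pow
      rw [h1]
      have h2 := hk z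
      change (σ ^ k) (τ⁻¹ (x z)) = τ⁻¹ (y z) at h2
      change τ ((σ ^ k) (τ⁻¹ (x z))) = y z
      rw [h2]
      exact AlgEquiv.apply_symm_apply τ (y z)
    · intro i
      obtain ⟨j, x, hx⟩ := hσ.2.2 i
      refine ⟨j, (τ : L →+* L).comp x, fun z => ?_⟩
      change τ (σ (τ⁻¹ (τ (x z)))) = τ (x z)
      have h1 : τ⁻¹ (τ (x z)) = x z := AlgEquiv.symm_apply_apply τ (x z)
      rw [h1, hx]
  have hdens := dens_class L C hC
  have hCcard : (C.card : ℝ) = (Nat.card {σ : Gal(L/ℚ) // IsGood F σ} : ℝ) := by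
    rw [Nat.card_eq_fintype_card, Fintype.card_subtype]
  rw [hCcard] at hdens
  refine lower_of_tendsto hD ?_ hdens ε hε
  rintro ℓ hℓ hℓD ⟨σ, hσ, hσℓ⟩
  have hF : Fact ℓ.Prime := ⟨hℓ⟩
  rw [Finset.mem_filter] at hσ
  obtain ⟨-, ⟨j, hj⟩, hfix⟩ := hσ
  have hℓp : ∀ j, ℓ ≠ p j := by
    intro j h
    exact hℓD (dvd_mul_of_dvd_right (h ▸ Finset.dvd_prod_of_mem _ (Finset.mem_univ j)) _)
  have hℓ1 : ∀ j i, ¬ ℓ ∣ D1 j i := by
    intro j i h
    refine hℓD (dvd_mul_of_dvd_left (dvd_mul_of_dvd_left ?_ _) _)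
    exact (h.trans (Finset.dvd_prod_of_mem (D1 j) (Finset.mem_univ i))).trans
      (Finset.dvd_prod_of_mem (fun j => ∏ i, D1 j i) (Finset.mem_univ j))
  have hℓ2 : ∀ j i, ¬ ℓ ∣ D2 j i := by
    intro j i h
    refine hℓD (dvd_mul_of_dvd_left (dvd_mul_of_dvd_right ?_ _) _)
    exact (h.trans (Finset.dvd_prod_of_mem (D2 j) (Finset.mem_univ i))).trans
      (Finset.dvd_prod_of_mem (fun j => ∏ i, D2 j i) (Finset.mem_univ j))
  refine ⟨hF, ?_⟩
  have hpj : Fact (p j).Prime := ⟨hp j⟩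
  refine local_main (R.ρ ℓ) (R.χ ℓ) (R.ω ℓ) (ha j) (π j) (hgen j) (hweil j) j₀ (hL j) (hrel j)
    (R.alt ℓ) (R.nondeg ℓ) (R.sim ℓ) (γ j) (hχ ℓ j (hℓp j)) (fun i => hγ ℓ j i (hℓp j))
    (fun i => hirr j i ℓ (hℓ1 j i) σ hσℓ (hj i)) fun i => ?_
  obtain ⟨j', x, hx⟩ := hfix i
  obtain ⟨β, hβ⟩ := hrt j' i ℓ (hℓ2 j' i) σ hσℓ x hx
  obtain ⟨Ω, hΩ, ⟨jΩ⟩⟩ := exists_finite_ext ℚ_[ℓ] L
  have hπ0 : ∀ i, π j' i ≠ 0 := by
    intro i h0
    have h1 := hweil j' i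
    rw [h0, zero_mul] at h1
    exact pow_ne_zero (a j') (Nat.cast_ne_zero.2 (hp j').ne_zero) h1.symm
  obtain ⟨s', h1, h2, h3⟩ := exists_roots (k := ℚ_[ℓ]) (Ω := Ω) (κ := Unit) (F := fun _ => F j' i)
    (L := L) (fun _ => π j' i) (fun _ => hgen j' i) (fun _ => hcard j' i)
    (fun N hN x y hxy => by
      have h4 := pow_inj (hrel j') hπ0 hN ⟨i, x.2⟩ ⟨i, y.2⟩ hxy
      have h5 : x.2 = y.2 := by simpa using h4
      obtain ⟨x1, x2⟩ := x
      obtain ⟨y1, y2⟩ := y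
      exact congrArg (Sigma.mk x1) h5) jΩ (R.ρ ℓ i (γ j')).charpoly (by
      rw [hγ ℓ j' i (hℓp j'), Finset.univ_unique, Finset.prod_singleton])
  refine ⟨γ j', β, Ω, inferInstance, inferInstance, s', h1, h2, h3, ?_⟩
  rw [hγ ℓ j' i (hℓp j'), IsRoot, eval_map_algebraMap]
  exact hβ

end Pool.Agent.Y114.TF
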